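import Pool.Agent.H34.GP.Funct
import Pool.Agent.H27.OP.Wt

/-!
# Cycles which involve at most three variables are boundaries in Green's range

`supp_ind` : a weight vector is in every submodule which contains the vacuum and is closed under the
creation operators in the variables of its support.
`cycle3` : a cycle which is a weight vector with at most three nonzero weights is a boundary, if
Green's theorem on the plane says so.
-/

set_option autoImplicit false
set_option linter.unusedSectionVars false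

open MvPolynomial Function

namespace Pool.Agent.H34.GP

open Pool.Agent.H27.OP Pool.Agent.H39.OP

/-! ### supports -/

section supp

variable {σ k : Type*} [Fintype σ] [Field k] [CharZero k] {F : Type*} [AddCommGroup F] [Module k F]
  {d : ℕ} {S : Fk σ k (Module.End k F) d} (A : Gr S)

include A in
lemma wt_neg {p m : ℕ} {x : σ} {v : F} (hv : v ∈ A.G p m) {c : k}
    (h : S.D (X x) x v = c • v) (hc : ∀ n : ℕ, c ≠ n) : v = 0 := by
  obtain ⟨M, hM⟩ := Dxx_LF A x hv
  rw [dp_eig _ h] at hM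
  rcases smul_eq_zero.mp hM with h1 | h1
  · obtain ⟨i, -, hi⟩ := Finset.prod_eq_zero_iff.mp h1
    exact absurd (sub_eq_zero.mp hi) (hc i)
  · exact h1

lemma sub_ne_nat {a b : ℕ} (h : a < b) (n : ℕ) : ((a : k) - (b : k)) ≠ n := by
  intro h1
  have h2 : ((a : ℕ) : k) = ((n + b : ℕ) : k) := by
    push_cast
    rw [← h1]
    ring
  have := Nat.cast_injective h2
  omega

lemma J_wt {μ : σ →₀ ℕ} (hμ : μ ∈ Mo σ d) {x : σ} {v : F} {c : k} (h : S.D (X x) x v = c • v) :
    S.D (X x) x (S.J μ v) = (c - (μ x : k)) • S.J μ v := by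
  classical
  have h1 := LinearMap.congr_fun (S.D_J (X x) x hμ) v
  rw [Module.End.mul_apply, LinearMap.sub_apply, Module.End.mul_apply, h, map_smul,
    LinearMap.sum_apply] at h1
  rw [h1, sub_smul]
  congr 1
  rw [Finset.sum_eq_single μ]
  · rw [X_pd_mon, coeff_smul, coeff_monomial, if_pos rfl, smul_eq_mul, mul_one]
    rfl
  · intro ν _ hν
    rw [X_pd_mon, coeff_smul, coeff_monomial, if_neg hν, smul_zero, zero_smul]
    rfl
  · intro h'
    exact absurd hμ h'

lemma T_wt [DecidableEq σ] {x y : σ} {v : F} {c : k} (h : S.D (X x) x v = c • v) :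
    S.D (X x) x (S.T y v) = (c - (if y = x then 1 else 0)) • S.T y v := by
  have h1 := LinearMap.congr_fun (S.D_T (X x) x y) v
  rw [Module.End.mul_apply, LinearMap.sub_apply, Module.End.mul_apply, h, map_smul,
    Module.End.mul_apply] at h1
  rw [h1, sub_smul]
  congr 1
  by_cases hxy : y = x
  · subst hxy
    rw [pderiv_X_self, map_one, if_pos rfl, one_smul]
    rfl
  · rw [pderiv_X_of_ne (Ne.symm hxy), map_zero, if_neg hxy, zero_smul]
    rfl

include A in
theorem supp_ind (t : σ → Prop) (U : Submodule k F) (h0 : A.G 0 0 ≤ U)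
    (hm : ∀ x, t x → ∀ w ∈ U, S.m (X x) w ∈ U)
    (hE : ∀ μ ∈ Mo σ d, (∀ y, ¬ t y → μ y = 0) → ∀ w ∈ U, S.E μ w ∈ U) :
    ∀ (p m : ℕ) (κ : F) (w : σ → ℕ), κ ∈ A.G p m → (∀ x, S.D (X x) x κ = (w x : k) • κ) →
      (∀ y, ¬ t y → w y = 0) → κ ∈ U := by
  classical
  intro p
  induction p with
  | zero =>
    intro m
    induction m with
    | zero => intro κ w hκ _ _; exact h0 hκ
    | succ m ih =>
      intro κ w hκ hw ht
      have h1 : ((m + 1 : ℕ) : k) • κ ∈ U := by
        rw [← A.eul hκ]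
        refine Submodule.sum_mem _ fun x _ => ?_
        by_cases hx : w x = 0
        · have h2 : S.T x κ = 0 := by
            refine wt_neg A (A.GT hκ) (T_wt (hw x)) ?_
            intro n
            rw [if_pos rfl, hx, Nat.cast_zero]
            have := sub_ne_nat (k := k) (a := 0) (b := 1) (by omega) n
            simpa using this
          rw [h2, map_zero]
          exact Submodule.zero_mem _
        · have htx : t x := by
            by_contra h
            exact hx (ht x h)
          refine hm x htx _ (ih _ (fun y => if x = y then w y - 1 else w y) (A.GT hκ) ?_ ?_)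
          · intro y
            rw [T_wt (hw y)]
            by_cases hxy : x = y
            · subst hxy
              rw [if_pos rfl, if_pos rfl, Nat.cast_sub (by omega), Nat.cast_one]
            · rw [if_neg hxy, if_neg hxy, sub_zero]
          · intro y hy
            have := ht y hy
            split_ifs <;> omega
      have h2 : ((m + 1 : ℕ) : k) ≠ 0 := Nat.cast_ne_zero.mpr (by omega)
      have h3 := U.smul_mem (((m + 1 : ℕ) : k)⁻¹) h1
      rwa [smul_smul, inv_mul_cancel₀ h2, one_smul] at h3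
  | succ p ih =>
    intro m κ w hκ hw ht
    have h1 : ((p + 1 : ℕ) : k) • κ ∈ U := by
      rw [← A.num hκ]
      refine Submodule.sum_mem _ fun μ hμ => ?_
      by_cases hle : ∀ x, μ x ≤ w x
      · refine hE μ hμ (fun y hy => ?_) _ (ih m _ (fun x => w x - μ x) (A.GJ hκ) ?_ ?_)
        · have := hle y
          have := ht y hy
          omega
        · intro x
          rw [J_wt hμ (hw x), Nat.cast_sub (hle x)]
        · intro y hy
          have := ht y hy
          omega
      · push Not at hle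
        obtain ⟨x, hx⟩ := hle
        have h2 : S.J μ κ = 0 := wt_neg A (A.GJ hκ) (J_wt hμ (hw x)) (sub_ne_nat hx)
        rw [h2, map_zero]
        exact Submodule.zero_mem _
    have h2 : ((p + 1 : ℕ) : k) ≠ 0 := Nat.cast_ne_zero.mpr (by omega)
    have h3 := U.smul_mem (((p + 1 : ℕ) : k)⁻¹) h1
    rwa [smul_smul, inv_mul_cancel₀ h2, one_smul] at h3

end supp

/-! ### three variables -/

section three

variable {q r N N' d : ℕ}

lemma Psi_GK (B : Bs (Fin q) ℂ N d) (B' : Bs (Fin r) ℂ N' d) {s : Fin q → MvPolynomial (Fin r) ℂ}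
    (hs : ∀ i, (s i).IsHomogeneous 1) {p m : ℕ} {f : Finset (Fin N) → MvPolynomial (Fin q) ℂ}
    (hf : f ∈ GK (Fin q) ℂ N p m) :
    Psi (SK B') B s (vac r N') f ∈ GK (Fin r) ℂ N' p m := by
  have hwd : ∀ l : List (Fin N),
      wd (GG (SK B') B s) l (vac r N') ∈ GK (Fin r) ℂ N' l.length 0 := by
    intro l
    induction l with
    | nil => exact vac_mem
    | cons i l ih =>
      rw [wd_cons, Module.End.mul_apply, List.length_cons]
      exact Ee_GK B' ih _
  rw [Psi_apply]
  refine Submodule.sum_mem _ fun I _ => ?_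
  by_cases hI : I.card = p
  · have h1 := hwd (I.sort (· ≤ ·))
    rw [Finset.length_sort, hI] at h1
    have h2 := (AK B').Gm (aeval_hom hs (hf I).1) h1
    rwa [zero_add] at h2
  · rw [(hf I).2 hI, map_zero, map_zero, LinearMap.zero_apply]
    exact Submodule.zero_mem _

theorem cycle3 {e a K : ℕ} (B : Bs (Fin r) ℂ N (e + 1))
    (hK : (2 * (e + 1) ≤ K ∧ a + 3 ≤ 3 * (e + 1)) ∨ (2 * (e + 1) ≤ K + 1 ∧ a + 2 ≤ 2 * (e + 1)))
    {κ : Finset (Fin N) → MvPolynomial (Fin r) ℂ} (hκ : κ ∈ GK (Fin r) ℂ N a K)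
    (hz : (SK B).del κ = 0) {w : Fin r → ℕ}
    (hw : ∀ x, (SK B).D (X x) x κ = (w x : ℂ) • κ)
    (h3 : (Finset.univ.filter fun x => w x ≠ 0).card ≤ 3) :
    κ ∈ LinearMap.range (SK B).del := by
  classical
  obtain ⟨N', B', hli, hsp⟩ := exists_basis 3 (e + 1)
  obtain ⟨Fs, hFs⟩ : ∃ Fs : Finset (Fin r), Fs = Finset.univ.filter fun x => w x ≠ 0 := ⟨_, rfl⟩
  rw [← hFs] at h3
  obtain ⟨i, hi⟩ : ∃ i : Fin r → Fin 3, ∀ x ∈ Fs, ∀ y ∈ Fs, i x = i y → x = y := by
    refine ⟨fun x => if h : x ∈ Fs then Fin.castLE h3 (Fs.equivFin ⟨x, h⟩) else 0, ?_⟩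
    intro x hx y hy h
    dsimp only at h
    rw [dif_pos hx, dif_pos hy] at h
    have h1 := Fs.equivFin.injective (Fin.castLE_injective h3 h)
    exact congrArg Subtype.val h1
  obtain ⟨s', hs'⟩ : ∃ s' : Fin r → MvPolynomial (Fin 3) ℂ,
      s' = fun x => if x ∈ Fs then X (i x) else 0 := ⟨_, rfl⟩
  obtain ⟨s, hs⟩ : ∃ s : Fin 3 → MvPolynomial (Fin r) ℂ,
      s = fun j => if h : ∃ x ∈ Fs, i x = j then X h.choose else 0 := ⟨_, rfl⟩
  have hs'1 : ∀ x, (s' x).IsHomogeneous 1 := by
    intro x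
    rw [hs']
    dsimp only
    split_ifs
    · exact isHomogeneous_X _ _
    · exact isHomogeneous_zero _ _ _
  have hs1 : ∀ j, (s j).IsHomogeneous 1 := by
    intro j
    rw [hs]
    dsimp only
    split_ifs
    · exact isHomogeneous_X _ _
    · exact isHomogeneous_zero _ _ _
  have hsx : ∀ x ∈ Fs, s (i x) = X x := by
    intro x hx
    have h : ∃ y ∈ Fs, i y = i x := ⟨x, hx, rfl⟩
    rw [hs]
    dsimp only
    rw [dif_pos h, hi _ h.choose_spec.1 x hx h.choose_spec.2]
  have hX : ∀ x ∈ Fs, aeval s (aeval s' (X x : MvPolynomial (Fin r) ℂ)) = X x := by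
    intro x hx
    rw [aeval_X, hs']
    dsimp only
    rw [if_pos hx, aeval_X, hsx x hx]
  have hmon : ∀ μ : Fin r →₀ ℕ, (∀ y, y ∉ Fs → μ y = 0) →
      aeval s (aeval s' (monomial μ (1 : ℂ))) = monomial μ 1 := by
    intro μ hμ
    rw [monomial_eq, map_one, one_mul, Finsupp.prod_fintype _ _ (fun _ => pow_zero _), map_prod,
      map_prod]
    refine Finset.prod_congr rfl fun x _ => ?_
    by_cases hx : x ∈ Fs
    · rw [map_pow, map_pow, hX x hx]
    · rw [hμ x hx, pow_zero, map_one, map_one]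
  obtain ⟨P, hP⟩ : ∃ P, P = Psi (SK B') B s' (vac 3 N') := ⟨_, rfl⟩
  obtain ⟨Q, hQ⟩ : ∃ Q, Q = Psi (SK B) B' s (vac r N) := ⟨_, rfl⟩
  have hQP : Q (P κ) = κ := by
    have h1 := supp_ind (AK B) (fun x => x ∈ Fs)
      (LinearMap.eqLocus (Q.comp P) (LinearMap.id)) ?_ ?_ ?_ a K κ w hκ hw ?_
    · exact h1
    · intro f hf
      have hf' : f ∈ GK (Fin r) ℂ N 0 0 := hf
      have h2 : f = (coeff 0 (f ∅)) • vac r N := by
        funext I
        rw [Pi.smul_apply]
        unfold vac
        by_cases hI : I = ∅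
        · rw [if_pos hI, hI, smul_eq_C_mul, mul_one]
          have h3 : (f ∅).totalDegree = 0 := Nat.le_zero.mp (hf' ∅).1.totalDegree_le
          exact (totalDegree_eq_zero_iff_eq_C).mp h3
        · rw [if_neg hI, smul_zero]
          exact (hf' I).2 fun h => hI (Finset.card_eq_zero.mp h)
      show Q (P f) = f
      rw [h2, map_smul, map_smul, hP, hQ, Psi_vac, Psi_vac]
    · intro x hx f hf
      have hf' : Q (P f) = f := hf
      show Q (P ((SK B).m (X x) f)) = (SK B).m (X x) f
      rw [hP, Psi_m, ← hP, hQ, Psi_m, ← hQ, hf', hX x hx]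
    · intro μ hμ hy f hf
      have hf' : Q (P f) = f := hf
      show Q (P ((SK B).E μ f)) = (SK B).E μ f
      rw [← (SK B).Ee_monomial hμ]
      have hh : (monomial μ (1 : ℂ)).IsHomogeneous (e + 1) :=
        isHomogeneous_monomial _ (mem_Mo.mp hμ)
      rw [hP, Psi_Ee _ _ _ _ hh, ← hP, hQ, Psi_Ee _ _ _ _ (aeval_hom hs'1 hh), ← hQ, hf',
        hmon μ hy]
    · intro y hy
      by_contra h
      exact hy (by rw [hFs, Finset.mem_filter]; exact ⟨Finset.mem_univ _, h⟩)
  have hPκ : P κ ∈ GK (Fin 3) ℂ N' a K := by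
    rw [hP]
    exact Psi_GK B B' hs'1 hκ
  have hPz : (SK B').del (P κ) = 0 := by
    rw [hP, ← Psi_del (SK B') B s' (vac 3 N') hs'1 (del_vac' B'), hz, map_zero]
  obtain ⟨ω, -, hω⟩ := green_plane_SK (by omega) B' hli hsp hK hPκ hPz
  refine ⟨Q ω, ?_⟩
  rw [hQ, ← Psi_del (SK B) B' s (vac r N) hs1 (del_vac' B), hω, ← hQ, hQP]

end three

end Pool.Agent.H34.GP
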