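import Pool.Agent.H34.GP.Pts

/-!
# Green's vanishing theorem, elementary proof: duality and the theorem

`green` : `r` variables, `φ` linearly independent forms of degree `d` whose span contains all
`X_i ^ d`; if `K + K' + r = r d`, `d ≤ K` and `(number of monomials of degree K') + r + a ≤ N`, the
Koszul complex of `φ` is exact at exterior degree `a` and coefficient degree `K`.
-/

set_option autoImplicit false
set_option linter.unusedSectionVars false

open MvPolynomial

namespace Pool.Agent.H34.GP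

open Pool.Agent.H27.OP

variable {r N : ℕ}

/-! ### multiplicativity of the action -/

lemma mul_monomial (μ : Fin r →₀ ℕ) (c : ℂ) (θ : Fn r) (e : Fin r → ℤ) :
    mul (monomial μ c) θ e = c * θ (sh e μ) := by
  rw [mul_apply' _ _ _ _ support_monomial_subset, Finset.sum_singleton, coeff_monomial, if_pos rfl]

lemma mul_mul (p q : MvPolynomial (Fin r) ℂ) : mul (p * q) = mul p * mul q := by
  induction p using MvPolynomial.induction_on' with
  | monomial μ a =>
    induction q using MvPolynomial.induction_on' with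
    | monomial ν b =>
      refine LinearMap.ext fun θ => funext fun e => ?_
      rw [monomial_mul, mul_monomial, Module.End.mul_apply, mul_monomial, mul_monomial, mul_assoc]
      congr 3
      funext i
      unfold sh
      rw [Finsupp.add_apply]
      push_cast
      ring
    | add p q hp hq => rw [_root_.mul_add, mul_add, mul_add, hp, hq, _root_.mul_add]
  | add p q hp hq => rw [add_mul, mul_add, mul_add, hp, hq, add_mul]

/-! ### the polynomial Koszul operator -/

/-- the Koszul differential on `Finset (Fin N) → ℂ[X]` -/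
noncomputable def KP (φ : Fin N → MvPolynomial (Fin r) ℂ)
    (f : Finset (Fin N) → MvPolynomial (Fin r) ℂ) : Finset (Fin N) → MvPolynomial (Fin r) ℂ :=
  fun I => ∑ b, φ b * aJ ℂ b f I

/-! ### exactness at the polynomial end -/

/-- the polynomial of a function supported on nonnegative exponents of degree `K` -/
noncomputable def toP (K : ℕ) (θ : Fn r) : MvPolynomial (Fin r) ℂ :=
  ∑ μ ∈ Mo (Fin r) K, monomial μ (θ fun i => (μ i : ℤ))

lemma coeff_toP {K : ℕ} {θ : Fn r} (h2 : ∀ e, ∑ i, e i ≠ (K : ℤ) → θ e = 0) (ν : Fin r →₀ ℕ) :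
    coeff ν (toP K θ) = θ fun i => (ν i : ℤ) := by
  unfold toP
  rw [coeff_sum]
  by_cases hν : ν ∈ Mo (Fin r) K
  · rw [Finset.sum_eq_single ν]
    · rw [coeff_monomial, if_pos rfl]
    · intro μ _ hμ
      rw [coeff_monomial, if_neg hμ]
    · intro h
      exact absurd hν h
  · rw [Finset.sum_eq_zero, h2]
    · intro h
      apply hν
      rw [mem_Mo, Finsupp.degree_eq_sum]
      exact_mod_cast h
    · intro μ hμ
      rw [coeff_monomial, if_neg]
      intro h
      rw [h] at hμ
      exact hν hμ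

lemma toP_zero (K : ℕ) : toP K (0 : Fn r) = 0 := by
  unfold toP
  refine Finset.sum_eq_zero fun μ _ => ?_
  rw [Pi.zero_apply, monomial_zero]

lemma toP_hom (K : ℕ) (θ : Fn r) : (toP K θ).IsHomogeneous K := by
  unfold toP
  refine IsHomogeneous.sum _ _ _ fun μ hμ => ?_
  exact isHomogeneous_monomial _ (mem_Mo.mp hμ)

lemma toP_smul (K : ℕ) (c : ℂ) (θ : Fn r) : toP K (c • θ) = c • toP K θ := by
  unfold toP
  rw [Finset.smul_sum]
  refine Finset.sum_congr rfl fun μ _ => ?_
  rw [smul_monomial]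
  rfl

lemma coeff_mul_toP {K : ℕ} {θ : Fn r} (h1 : ∀ e, e ∉ TT r 0 → θ e = 0)
    (h2 : ∀ e, ∑ i, e i ≠ (K : ℤ) → θ e = 0) (p : MvPolynomial (Fin r) ℂ) (ν : Fin r →₀ ℕ) :
    coeff ν (p * toP K θ) = mul p θ fun i => (ν i : ℤ) := by
  classical
  rw [mul_apply]
  conv_lhs => rw [p.as_sum, Finset.sum_mul, coeff_sum]
  refine Finset.sum_congr rfl fun μ _ => ?_
  rw [coeff_monomial_mul']
  split_ifs with h
  · rw [coeff_toP h2]
    congr 2
    funext i
    unfold sh
    rw [Finsupp.tsub_apply, Nat.cast_sub (h i)]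
  · rw [h1, mul_zero]
    intro h'
    apply h
    intro i
    have h3 : (0 : ℤ) ≤ (ν i : ℤ) - (μ i : ℤ) := h'.2 i (Nat.zero_le _)
    omega

theorem Ex_zero {φ : Fin N → MvPolynomial (Fin r) ℂ} {d : ℕ} (hφ : ∀ b, (φ b).IsHomogeneous d)
    (hli : LinearIndependent ℂ φ) {K c : ℕ} (hc : (Mo (Fin r) K).card ≤ c) :
    Ex φ (TT r 0) c (K : ℤ) := by
  classical
  intro f hf hm hK
  have hF : (fun I => toP K (f I)) = 0 := by
    refine pts_main hφ hli (K := K) (B := d + K + 1) (by omega) (by omega) c _ ∅ ?_ ?_ ?_ ?_ ?_ ?_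
    · intro I
      exact toP_hom _ _
    · intro I hI
      rw [hf.2 I hI, toP_zero]
    · intro t ht
      exact absurd ht (Finset.notMem_empty t)
    · intro t ht
      exact absurd ht (Finset.notMem_empty t)
    · intro t _ _ I
      rw [IO_apply]
      have h1 : ∑ b, φ b * aJ ℂ b (fun I => toP K (f I)) I = 0 := by
        refine MvPolynomial.ext _ _ fun ν => ?_
        rw [coeff_sum, coeff_zero, ← hK I (fun i => (ν i : ℤ)) ⟨fun i hi => absurd hi
          (Nat.not_lt_zero _), fun i _ => by positivity⟩, KO_apply]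
        refine Finset.sum_congr rfl fun b _ => ?_
        have h2 : aJ ℂ b (fun I => toP K (f I)) I = toP K (aJ ℂ b f I) := by
          rw [aJ_apply, aJ_apply]
          split_ifs
          · rw [toP_zero]
          · rw [toP_smul]
        rw [h2]
        refine coeff_mul_toP ?_ ?_ _ _
        · intro e he
          rw [aJ_apply]
          split_ifs
          · rfl
          · rw [Pi.smul_apply, hf.1 _ e he, smul_zero]
        · intro e he
          rw [aJ_apply]
          split_ifs
          · rfl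
          · rw [Pi.smul_apply, hm _ e he, smul_zero]
      have h2 := congrArg (evt r (d + K + 1) t) h1
      rw [map_zero, map_sum] at h2
      rw [← h2]
      refine Finset.sum_congr rfl fun b _ => ?_
      rw [map_mul, smul_eq_mul]
      congr 1
      rw [aJ_apply, aJ_apply]
      split_ifs
      · rw [map_zero]
      · rw [map_smul]
    · rw [Finset.card_empty, zero_add]
      exact hc
  refine ⟨0, ⟨fun _ _ _ => rfl, fun _ _ => rfl⟩, ?_⟩
  intro I e he
  rw [map_zero, Pi.zero_apply, Pi.zero_apply]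
  by_cases hdeg : ∑ i, e i = (K : ℤ)
  · have h1 := congrArg (coeff (Finsupp.equivFunOnFinite.symm fun i => (e i).toNat))
      (congrFun hF I)
    rw [Pi.zero_apply, coeff_zero, coeff_toP (fun e he => hm I e he)] at h1
    rw [← h1]
    congr 1
    funext i
    have h2 := he.2 i (Nat.zero_le _)
    show e i = (((e i).toNat : ℕ) : ℤ)
    omega
  · exact hm I e hdeg

/-- negative degrees -/
theorem Ex_neg (φ : Fin N → MvPolynomial (Fin r) ℂ) (c : ℕ) {m : ℤ} (hm : m < 0) :
    Ex φ (TT r 0) c m := by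
  intro f _ hd _
  refine ⟨0, ⟨fun _ _ _ => rfl, fun _ _ => rfl⟩, ?_⟩
  intro I e he
  rw [map_zero, Pi.zero_apply, Pi.zero_apply]
  refine hd I e fun h => ?_
  have h1 : 0 ≤ ∑ i, e i := Finset.sum_nonneg fun i _ => he.2 i (Nat.zero_le _)
  omega

theorem Ex_chain {φ : Fin N → MvPolynomial (Fin r) ℂ} {d : ℕ} (hφ : ∀ b, (φ b).IsHomogeneous d)
    (hpow : ∀ i : Fin r, ∃ a : Fin N → ℂ, ∑ b, a b • φ b = X i ^ d) {c : ℕ} {m : ℤ}
    (h : Ex φ (TT r 0) c m) : ∀ j, j ≤ r → Ex φ (TT r j) (c + j) (m - j * d) := by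
  intro j
  induction j with
  | zero =>
    intro _
    have h1 : m - ((0 : ℕ) : ℤ) * d = m := by push_cast; ring
    rw [h1]
    exact h
  | succ j ih =>
    intro hj
    obtain ⟨a, ha⟩ := hpow ⟨j, hj⟩
    refine Ex_succ hφ hj a ha ?_
    have h1 : m - ((j + 1 : ℕ) : ℤ) * d + d = m - (j : ℤ) * d := by push_cast; ring
    rw [h1]
    exact ih (by omega)

/-! ### signs and the pairing -/

/-- `∏_{i ∈ I} (-1)^i` -/
noncomputable def eps (I : Finset (Fin N)) : ℂ := ∏ i ∈ I, (-1) ^ (i : ℕ)

lemma eps_sq (I : Finset (Fin N)) : eps I * eps I = 1 := by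
  unfold eps
  rw [← Finset.prod_mul_distrib]
  refine Finset.prod_eq_one fun i _ => ?_
  rw [← mul_pow]
  simp

lemma eps_insert {I : Finset (Fin N)} {b : Fin N} (hb : b ∉ I) :
    eps (insert b I) = (-1) ^ (b : ℕ) * eps I := by
  unfold eps
  rw [Finset.prod_insert hb]

lemma sgn_compl (I : Finset (Fin N)) (b : Fin N) :
    sgn ℂ I b * sgn ℂ Iᶜ b = (-1) ^ (b : ℕ) := by
  unfold sgn
  rw [← pow_add, ← Finset.card_union_of_disjoint]
  · congr 1
    have h1 : I.filter (fun c => c < b) ∪ Iᶜ.filter (fun c => c < b)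
        = Finset.univ.filter fun c => c < b := by
      rw [← Finset.filter_union, Finset.union_compl]
    rw [h1]
    have h2 : (Finset.univ.filter fun c : Fin N => c < b) = Finset.Iio b := by
      ext c
      simp
    rw [h2, Fin.card_Iio]
  · refine Finset.disjoint_filter_filter ?_
    exact disjoint_compl_right

/-- sign rule of the duality -/
lemma sign_rule {J : Finset (Fin N)} {b : Fin N} (hb : b ∉ J) :
    eps (insert b J)ᶜ * sgn ℂ (insert b J)ᶜ b = eps Jᶜ * sgn ℂ J b := by
  have h1 : Jᶜ = insert b (insert b J)ᶜ := by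
    ext c
    simp only [Finset.mem_compl, Finset.mem_insert, not_or]
    by_cases h : c = b
    · simp [h, hb]
    · simp [h]
  have h2 : b ∉ (insert b J)ᶜ := by simp
  have h3 : eps Jᶜ = (-1) ^ (b : ℕ) * eps (insert b J)ᶜ := by
    conv_lhs => rw [h1]
    exact eps_insert h2
  have h4 := sgn_compl (insert b J) b
  rw [sgn_insert_self] at h4
  have h5 : sgn ℂ (insert b J)ᶜ b = (-1) ^ (b : ℕ) * sgn ℂ J b := by
    have h6 := sgn_sq (k := ℂ) J b
    calc sgn ℂ (insert b J)ᶜ b = (sgn ℂ J b * sgn ℂ J b) * sgn ℂ (insert b J)ᶜ b := by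
          rw [h6, one_mul]
      _ = (sgn ℂ J b * sgn ℂ (insert b J)ᶜ b) * sgn ℂ J b := by ring
      _ = _ := by rw [h4]
  rw [h3, h5]
  ring

/-- the exponent `(-1, …, -1)` -/
def m1 (r : ℕ) : Fin r → ℤ := fun _ => -1

/-- the pairing between `Finset (Fin N) → Fn r` and `Finset (Fin N) → ℂ[X]` -/
noncomputable def pair (Λ : Finset (Fin N) → Fn r) (f : Finset (Fin N) → MvPolynomial (Fin r) ℂ) :
    ℂ := ∑ J, eps Jᶜ * mul (f J) (Λ Jᶜ) (m1 r)

lemma sum_mem_eq {M : Type*} [AddCommMonoid M] (b : Fin N) (T : Finset (Fin N) → M) :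
    ∑ J : Finset (Fin N), (if b ∈ J then T J else 0)
      = ∑ J : Finset (Fin N), (if b ∈ J then 0 else T (insert b J)) := by
  classical
  rw [← Finset.sum_filter]
  have h1 : ∑ J : Finset (Fin N), (if b ∈ J then 0 else T (insert b J))
      = ∑ J ∈ (Finset.univ.filter fun J : Finset (Fin N) => b ∉ J), T (insert b J) := by
    rw [Finset.sum_filter]
    refine Finset.sum_congr rfl fun J _ => ?_
    by_cases h : b ∈ J
    · rw [if_pos h, if_neg (not_not.mpr h)]
    · rw [if_neg h, if_pos h]
  rw [h1]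
  refine Finset.sum_bij' (fun J _ => J.erase b) (fun J _ => insert b J) ?_ ?_ ?_ ?_ ?_
  · intro J _
    simp
  · intro J _
    simp
  · intro J hJ
    exact Finset.insert_erase (Finset.mem_filter.mp hJ).2
  · intro J hJ
    exact Finset.erase_insert (Finset.mem_filter.mp hJ).2
  · intro J hJ
    rw [Finset.insert_erase (Finset.mem_filter.mp hJ).2]

lemma pair_KO (φ : Fin N → MvPolynomial (Fin r) ℂ) (Λ : Finset (Fin N) → Fn r)
    (f : Finset (Fin N) → MvPolynomial (Fin r) ℂ) : pair (KO φ Λ) f = pair Λ (KP φ f) := by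
  classical
  have h1 : pair (KO φ Λ) f = ∑ b, ∑ J : Finset (Fin N), if b ∈ J then
      eps Jᶜ * sgn ℂ Jᶜ b * mul (f J * φ b) (Λ (insert b Jᶜ)) (m1 r) else 0 := by
    unfold pair
    rw [Finset.sum_comm]
    refine Finset.sum_congr rfl fun J _ => ?_
    have h2 : KO φ Λ Jᶜ = ∑ b, mul (φ b) (aJ ℂ b Λ Jᶜ) := by
      funext e
      rw [KO_apply, Finset.sum_apply]
    rw [h2, map_sum, Finset.sum_apply, Finset.mul_sum]
    refine Finset.sum_congr rfl fun b _ => ?_
    rw [aJ_apply]
    by_cases hb : b ∈ J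
    · rw [if_pos hb, if_neg (by simpa using hb), map_smul, map_smul, Pi.smul_apply, smul_eq_mul,
        mul_mul, Module.End.mul_apply]
      ring
    · rw [if_neg hb, if_pos (by simpa using hb), map_zero, map_zero, Pi.zero_apply, mul_zero]
  have h3 : pair Λ (KP φ f) = ∑ b, ∑ J : Finset (Fin N), if b ∈ J then 0 else
      eps Jᶜ * sgn ℂ J b * mul (f (insert b J) * φ b) (Λ Jᶜ) (m1 r) := by
    unfold pair
    rw [Finset.sum_comm]
    refine Finset.sum_congr rfl fun J _ => ?_
    have h2 : mul (KP φ f J) = ∑ b, mul (φ b * aJ ℂ b f J) := by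
      unfold KP
      have h4 := mul_sum Finset.univ (fun _ : Fin N => (1 : ℂ)) (fun b => φ b * aJ ℂ b f J)
      simpa only [one_smul] using h4
    rw [h2, LinearMap.sum_apply, Finset.sum_apply, Finset.mul_sum]
    refine Finset.sum_congr rfl fun b _ => ?_
    rw [aJ_apply]
    by_cases hb : b ∈ J
    · rw [if_pos hb, if_pos hb, mul_zero, mul_zero', LinearMap.zero_apply, Pi.zero_apply, mul_zero]
    · rw [if_neg hb, if_neg hb, mul_smul_comm, mul_smul, LinearMap.smul_apply, Pi.smul_apply,
        smul_eq_mul, mul_comm (φ b)]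
      ring
  rw [h1, h3]
  refine Finset.sum_congr rfl fun b _ => ?_
  rw [sum_mem_eq b fun J => eps Jᶜ * sgn ℂ Jᶜ b * mul (f J * φ b) (Λ (insert b Jᶜ)) (m1 r)]
  refine Finset.sum_congr rfl fun J _ => ?_
  by_cases hb : b ∈ J
  · rw [if_pos hb, if_pos hb]
  · have h4 : insert b (insert b J)ᶜ = Jᶜ := by
      ext c
      simp only [Finset.mem_compl, Finset.mem_insert, not_or]
      by_cases h : c = b
      · simp [h, hb]
      · simp [h]
    rw [if_neg hb, if_neg hb, sign_rule hb, h4]

end Pool.Agent.H34.GP
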