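import Pool.Agent.H27.OP.Car

/-!
# Green's vanishing theorem, elementary proof: Koszul complexes of functions on `ℤ^r`

`Fn r` : all functions `ℤ^r → ℂ`; polynomials in `r` variables act by
`(p θ)(e) = ∑ coeff μ p * θ(e - μ)`.  `KO φ` : the Koszul operator of `φ : Fin N → ℂ[X]` on
`Finset (Fin N) → Fn r`.

For a set `A ⊆ ℤ^r` of exponents we look at the complex functions supported on `A`, with differential
`KO φ` restricted to `A`.  `Ex φ A b m` : exactness at exterior degree `b` and total degree `m`.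
-/

set_option autoImplicit false
set_option linter.unusedSectionVars false

open MvPolynomial

namespace Pool.Agent.H34.GP

open Pool.Agent.H27.OP

/-- functions on `ℤ^r` -/
abbrev Fn (r : ℕ) : Type := (Fin r → ℤ) → ℂ

variable {r N : ℕ}

/-- `e - μ` -/
def sh (e : Fin r → ℤ) (μ : Fin r →₀ ℕ) : Fin r → ℤ := fun i => e i - (μ i : ℤ)

/-- the action of a polynomial -/
noncomputable def mul (p : MvPolynomial (Fin r) ℂ) : Module.End ℂ (Fn r) where
  toFun θ := fun e => ∑ μ ∈ p.support, coeff μ p * θ (sh e μ)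
  map_add' θ θ' := by
    funext e
    simp only [Pi.add_apply, mul_add, Finset.sum_add_distrib]
  map_smul' t θ := by
    funext e
    simp only [Pi.smul_apply, smul_eq_mul, RingHom.id_apply, Finset.mul_sum]
    exact Finset.sum_congr rfl fun μ _ => by ring

lemma mul_apply (p : MvPolynomial (Fin r) ℂ) (θ : Fn r) (e : Fin r → ℤ) :
    mul p θ e = ∑ μ ∈ p.support, coeff μ p * θ (sh e μ) := rfl

lemma mul_apply' (p : MvPolynomial (Fin r) ℂ) (θ : Fn r) (e : Fin r → ℤ)
    (S : Finset (Fin r →₀ ℕ)) (hS : p.support ⊆ S) :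
    mul p θ e = ∑ μ ∈ S, coeff μ p * θ (sh e μ) := by
  rw [mul_apply]
  refine Finset.sum_subset hS fun μ _ h => ?_
  rw [notMem_support_iff.mp h, zero_mul]

lemma mul_add (p q : MvPolynomial (Fin r) ℂ) : mul (p + q) = mul p + mul q := by
  classical
  refine LinearMap.ext fun θ => funext fun e => ?_
  rw [LinearMap.add_apply, Pi.add_apply,
    mul_apply' (p + q) θ e (p.support ∪ q.support) support_add,
    mul_apply' p θ e (p.support ∪ q.support) Finset.subset_union_left,
    mul_apply' q θ e (p.support ∪ q.support) Finset.subset_union_right,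
    ← Finset.sum_add_distrib]
  exact Finset.sum_congr rfl fun μ _ => by rw [coeff_add, add_mul]

lemma mul_smul (t : ℂ) (p : MvPolynomial (Fin r) ℂ) : mul (t • p) = t • mul p := by
  classical
  refine LinearMap.ext fun θ => funext fun e => ?_
  rw [LinearMap.smul_apply, Pi.smul_apply, smul_eq_mul,
    mul_apply' (t • p) θ e p.support support_smul, mul_apply, Finset.mul_sum]
  exact Finset.sum_congr rfl fun μ _ => by rw [coeff_smul, smul_eq_mul, mul_assoc]

lemma mul_zero' : mul (0 : MvPolynomial (Fin r) ℂ) = 0 := by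
  have := mul_smul (0 : ℂ) (0 : MvPolynomial (Fin r) ℂ)
  rwa [zero_smul, zero_smul] at this

lemma mul_sum {ι : Type*} (s : Finset ι) (a : ι → ℂ) (p : ι → MvPolynomial (Fin r) ℂ) :
    mul (∑ i ∈ s, a i • p i) = ∑ i ∈ s, a i • mul (p i) := by
  classical
  induction s using Finset.induction_on with
  | empty => rw [Finset.sum_empty, Finset.sum_empty, mul_zero']
  | insert i s hi ih => rw [Finset.sum_insert hi, Finset.sum_insert hi, mul_add, mul_smul, ih]

lemma sh_comm (e : Fin r → ℤ) (μ ν : Fin r →₀ ℕ) : sh (sh e μ) ν = sh (sh e ν) μ := by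
  funext i
  unfold sh
  ring

lemma mul_comm' (p q : MvPolynomial (Fin r) ℂ) : mul p * mul q = mul q * mul p := by
  refine LinearMap.ext fun θ => funext fun e => ?_
  rw [Module.End.mul_apply, Module.End.mul_apply, mul_apply, mul_apply]
  simp only [mul_apply, Finset.mul_sum]
  rw [Finset.sum_comm]
  refine Finset.sum_congr rfl fun μ _ => Finset.sum_congr rfl fun ν _ => ?_
  rw [sh_comm]
  ring

/-- the Koszul operator -/
noncomputable def KO (φ : Fin N → MvPolynomial (Fin r) ℂ) :
    Module.End ℂ (Finset (Fin N) → Fn r) :=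
  ∑ b, lm ℂ N (mul (φ b)) * aJ ℂ b

/-- exterior multiplication with `∑ a_b φ_b` -/
noncomputable def EO (a : Fin N → ℂ) : Module.End ℂ (Finset (Fin N) → Fn r) :=
  ∑ b, a b • aE ℂ b

lemma KO_KO (φ : Fin N → MvPolynomial (Fin r) ℂ) : KO φ * KO φ = 0 := by
  have h1 : KO φ * KO φ = ∑ b, ∑ c, lm ℂ N (mul (φ b) * mul (φ c)) * (aJ ℂ b * aJ ℂ c) := by
    unfold KO
    rw [Finset.sum_mul_sum]
    refine Finset.sum_congr rfl fun b _ => Finset.sum_congr rfl fun c _ => ?_
    rw [map_mul, mul_assoc, ← mul_assoc (aJ ℂ b), ← lm_aJ, mul_assoc, mul_assoc]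
  have h2 : KO φ * KO φ = - (KO φ * KO φ) := by
    conv_lhs => rw [h1, Finset.sum_comm]
    rw [h1, ← Finset.sum_neg_distrib]
    refine Finset.sum_congr rfl fun b _ => ?_
    rw [← Finset.sum_neg_distrib]
    refine Finset.sum_congr rfl fun c _ => ?_
    rw [mul_comm', aJJ]
    refine LinearMap.ext fun f => ?_
    rw [Module.End.mul_apply, LinearMap.neg_apply, map_neg, LinearMap.neg_apply]
    rfl
  have h3 : (2 : ℂ) • (KO φ * KO φ) = 0 := by
    rw [two_smul]
    nth_rewrite 2 [h2]
    exact add_neg_cancel _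
  exact (smul_eq_zero.mp h3).resolve_left two_ne_zero

lemma KO_EO (φ : Fin N → MvPolynomial (Fin r) ℂ) (a : Fin N → ℂ) :
    KO φ * EO a + EO a * KO φ = lm ℂ N (mul (∑ b, a b • φ b)) := by
  classical
  have h1 : ∀ b c : Fin N, (aJ ℂ b : Module.End ℂ (Finset (Fin N) → Fn r)) * aE ℂ c
      + aE ℂ c * aJ ℂ b = if b = c then 1 else 0 := by
    intro b c
    by_cases h : b = c
    · subst h
      rw [aJEs, if_pos rfl, sub_add_cancel]
    · rw [aJE h, if_neg h, neg_add_cancel]
  unfold KO EO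
  rw [Finset.sum_mul_sum, Finset.sum_mul_sum, Finset.sum_comm (s := Finset.univ)
    (t := Finset.univ) (f := fun b c => (a b • aE ℂ b) * (lm ℂ N (mul (φ c)) * aJ ℂ c)),
    ← Finset.sum_add_distrib]
  rw [mul_sum, map_sum]
  refine Finset.sum_congr rfl fun b _ => ?_
  rw [← Finset.sum_add_distrib]
  have h2 : ∀ c ∈ (Finset.univ : Finset (Fin N)),
      (lm ℂ N (mul (φ b)) * aJ ℂ b) * (a c • aE ℂ c)
        + (a c • aE ℂ c) * (lm ℂ N (mul (φ b)) * aJ ℂ b)
      = if b = c then a c • lm ℂ N (mul (φ b)) else 0 := by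
    intro c _
    have h3 : (a c • aE ℂ c) * (lm ℂ N (mul (φ b)) * aJ ℂ b)
        = a c • (lm ℂ N (mul (φ b)) * (aE ℂ c * aJ ℂ b)) := by
      rw [smul_mul_assoc, ← mul_assoc, ← lm_aE, mul_assoc]
    rw [h3, mul_smul_comm, mul_assoc, ← smul_add, ← _root_.mul_add, h1]
    split_ifs with h
    · rw [mul_one]
    · rw [mul_zero, smul_zero]
  rw [Finset.sum_congr rfl h2, Finset.sum_ite_eq, if_pos (Finset.mem_univ b), map_smul]

end Pool.Agent.H34.GP
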