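import Pool.Agent.H34.GP.Green
import Pool.Agent.H27.OP.Final

/-!
# Green's vanishing theorem on the plane

`green_plane` : `φ` a basis of the ternary forms of degree `d`; the Koszul complex is exact at
exterior degree `a` and coefficient degree `K` if `K ≥ 2 d` and `a + 3 ≤ 3 d`, or if `K + 1 ≥ 2 d`
and `a + 2 ≤ 2 d`.  `green_plane_SK` : the same for the operator `(SK B).del` of the project OP.
`green_frozen` : the form of the frozen statement.
-/

set_option autoImplicit false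
set_option linter.unusedSectionVars false

open MvPolynomial

namespace Pool.Agent.H34.GP

open Pool.Agent.H27.OP

variable {r N : ℕ}

lemma card_Mo_eq {d : ℕ} {φ : Fin N → MvPolynomial (Fin r) ℂ} (hli : LinearIndependent ℂ φ)
    (hsp : Submodule.span ℂ (Set.range φ) = homogeneousSubmodule (Fin r) ℂ d) :
    (Mo (Fin r) d).card = N := by
  classical
  have h1 := finrank_span_eq_card hli
  rw [hsp, Fintype.card_fin] at h1
  have h2 : LinearIndependent ℂ fun μ : Mo (Fin r) d => (monomial (μ : Fin r →₀ ℕ) (1 : ℂ)) := by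
    have h3 := (basisMonomials (Fin r) ℂ).linearIndependent
    have h4 := h3.comp (fun μ : Mo (Fin r) d => (μ : Fin r →₀ ℕ)) Subtype.val_injective
    rw [coe_basisMonomials] at h4
    exact h4
  have h3 := finrank_span_eq_card h2
  have h4 : Submodule.span ℂ (Set.range fun μ : Mo (Fin r) d =>
      (monomial (μ : Fin r →₀ ℕ) (1 : ℂ))) = homogeneousSubmodule (Fin r) ℂ d := by
    refine le_antisymm (Submodule.span_le.mpr ?_) ?_
    · rintro _ ⟨μ, rfl⟩
      exact isHomogeneous_monomial _ (mem_Mo.mp μ.2)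
    · intro p hp
      rw [p.as_sum]
      refine Submodule.sum_mem _ fun μ hμ => ?_
      have h5 : μ ∈ Mo (Fin r) d := mem_Mo_of_coeff hp (mem_support_iff.mp hμ)
      have h6 : monomial μ (coeff μ p) = coeff μ p • monomial μ (1 : ℂ) := by
        rw [smul_monomial, smul_eq_mul, mul_one]
      rw [h6]
      exact Submodule.smul_mem _ _ (Submodule.subset_span ⟨⟨μ, h5⟩, rfl⟩)
  rw [h4, h1, Fintype.card_coe] at h3
  exact h3.symm

lemma card_Mo3 (j : ℕ) : 2 * (Mo (Fin 3) j).card = (j + 2) * (j + 1) := by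
  have h0 : (Mo (Fin 3) j).card = (3 + j - 1).choose j := by
    have h1 := Finset.card_finsuppAntidiag_nat_eq_choose (s := (Finset.univ : Finset (Fin 3))) j
    rw [Finset.card_univ, Fintype.card_fin] at h1
    rw [← h1]
    congr 1
    ext μ
    rw [mem_Mo, Finset.mem_finsuppAntidiag, Finsupp.degree_eq_sum]
    simp
  rw [h0]
  have h1 : 3 + j - 1 = j + 2 := by omega
  rw [h1, Nat.choose_symm_add, Nat.choose_two_right]
  have h2 : 2 ∣ (j + 2) * (j + 2 - 1) := by
    have := Nat.even_mul_pred_self (j + 2)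
    exact this.two_dvd
  rw [Nat.mul_div_cancel' h2]
  rfl

/-- **Green's theorem on the plane** -/
theorem green_plane {d : ℕ} (hd : 1 ≤ d) {φ : Fin N → MvPolynomial (Fin 3) ℂ}
    (hli : LinearIndependent ℂ φ)
    (hsp : Submodule.span ℂ (Set.range φ) = homogeneousSubmodule (Fin 3) ℂ d) {K a : ℕ}
    (hK : (2 * d ≤ K ∧ a + 3 ≤ 3 * d) ∨ (2 * d ≤ K + 1 ∧ a + 2 ≤ 2 * d))
    {f : Finset (Fin N) → MvPolynomial (Fin 3) ℂ} (hf : f ∈ CS 3 N a K) (hcyc : KP φ f = 0) :
    ∃ g ∈ CS 3 N (a + 1) (K - d), KP φ g = f := by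
  have hφ : ∀ b, (φ b).IsHomogeneous d := by
    intro b
    have h1 : φ b ∈ homogeneousSubmodule (Fin 3) ℂ d := by
      rw [← hsp]
      exact Submodule.subset_span ⟨b, rfl⟩
    exact h1
  have hpow : ∀ i : Fin 3, ∃ a : Fin N → ℂ, ∑ b, a b • φ b = X i ^ d := by
    intro i
    have h1 : (X i ^ d : MvPolynomial (Fin 3) ℂ) ∈ Submodule.span ℂ (Set.range φ) := by
      rw [hsp]
      exact isHomogeneous_X_pow i d
    exact (Submodule.mem_span_range_iff_exists_fun ℂ).mp h1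
  have hN := card_Mo_eq hli hsp
  have hN3 := card_Mo3 d
  rw [hN] at hN3
  have hdK : d ≤ K := by omega
  by_cases hlarge : 3 * d < K + 3
  · refine green_large hφ hpow hdK hlarge ?_ hf hcyc
    rcases Nat.lt_or_ge d 2 with h2 | h2
    · have : d = 1 := by omega
      subst this
      omega
    · obtain ⟨e, rfl⟩ : ∃ e, d = e + 2 := ⟨d - 2, by omega⟩
      rcases hK with h | h <;> nlinarith
  · obtain ⟨K', hK'⟩ : ∃ K', K + K' + 3 = 3 * d := ⟨3 * d - 3 - K, by omega⟩
    refine green hφ hli hpow hdK hK' ?_ hf hcyc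
    have h1 := card_Mo3 K'
    rcases hK with h | h
    · obtain ⟨e, rfl⟩ : ∃ e, d = K' + 3 + e := ⟨d - K' - 3, by omega⟩
      nlinarith
    · obtain ⟨e, rfl⟩ : ∃ e, d = K' + 2 + e := ⟨d - K' - 2, by omega⟩
      nlinarith

lemma SK_eq_KP {d : ℕ} (B : Bs (Fin r) ℂ N d) (f : Finset (Fin N) → MvPolynomial (Fin r) ℂ) :
    (SK B).del f = KP B.φ f := by
  funext I
  rw [SK_del]
  rfl

theorem green_plane_SK {d : ℕ} (hd : 1 ≤ d) (B : Bs (Fin 3) ℂ N d)
    (hli : LinearIndependent ℂ B.φ)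
    (hsp : Submodule.span ℂ (Set.range B.φ) = homogeneousSubmodule (Fin 3) ℂ d) {K a : ℕ}
    (hK : (2 * d ≤ K ∧ a + 3 ≤ 3 * d) ∨ (2 * d ≤ K + 1 ∧ a + 2 ≤ 2 * d))
    {f : Finset (Fin N) → MvPolynomial (Fin 3) ℂ} (hf : f ∈ GK (Fin 3) ℂ N a K)
    (hcyc : (SK B).del f = 0) :
    ∃ g ∈ GK (Fin 3) ℂ N (a + 1) (K - d), (SK B).del g = f := by
  rw [SK_eq_KP] at hcyc
  obtain ⟨g, hg, hg'⟩ := green_plane hd hli hsp hK (f := f) hf hcyc
  exact ⟨g, hg, by rw [SK_eq_KP, hg']⟩

end Pool.Agent.H34.GP
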