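import Pool.Agent.H39.OP.Final
import Pool.Agent.H34.GP.Plane

/-!
# Functoriality of the Koszul complex under linear substitutions

`s : Fin q → MvPolynomial (Fin r) ℂ` linear forms, `ρ = aeval s`.  `Psi S B s κ₀` is the map from the
Koszul complex of the forms of degree `d` in `q` variables to the one in `r` variables (given by an
operator algebra `S` and a vacuum `κ₀`).  It commutes with multiplications (`Psi_m`), with exterior
multiplications (`Psi_Ee`) and with the differentials (`Psi_del`), hence it maps products of rows to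
products of rows (`Psi_Pr`).

`push_range` : products of rows which are boundaries go to boundaries.
`range_of_plane` : a product of rows all of whose letters are in the image of the ternary forms is a
boundary if Green's theorem on the plane (`green_plane`) says so.
-/

set_option autoImplicit false
set_option linter.unusedSectionVars false

open MvPolynomial Function

namespace Pool.Agent.H34.GP

open Pool.Agent.H27.OP Pool.Agent.H39.OP

/-! ### words in anticommuting operators -/

section words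

variable {N : ℕ} {O : Type*} [Ring O] [Algebra ℂ O] (G : Fin N → O)

/-- the product of the operators over a list -/
def wd (l : List (Fin N)) : O := (l.map G).prod

lemma wd_cons (i : Fin N) (l : List (Fin N)) : wd G (i :: l) = G i * wd G l := by
  simp [wd]

variable {G}

lemma anti_sq (hG : ∀ i j, G i * G j = -(G j * G i)) (i : Fin N) : G i * G i = 0 := by
  have h := hG i i
  have h2 : (2 : ℂ) • (G i * G i) = 0 := by
    rw [two_smul]
    nth_rewrite 1 [h]
    exact neg_add_cancel _
  have h3 := congrArg (fun z => (2 : ℂ)⁻¹ • z) h2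
  simpa [smul_smul] using h3

lemma wd_mem (hG : ∀ i j, G i * G j = -(G j * G i)) (i : Fin N) :
    ∀ l : List (Fin N), i ∈ l → G i * wd G l = 0
  | [], h => by simp at h
  | j :: l, h => by
    rw [wd_cons]
    rcases List.mem_cons.mp h with h | h
    · rw [← h, ← mul_assoc, anti_sq hG, zero_mul]
    · rw [← mul_assoc, hG, neg_mul, mul_assoc, wd_mem hG i l h, mul_zero, neg_zero]

lemma wd_ins (hG : ∀ i j, G i * G j = -(G j * G i)) (i : Fin N) :
    ∀ l : List (Fin N), l.Pairwise (· ≤ ·) → i ∉ l →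
      wd G (l.orderedInsert (· ≤ ·) i) = (-1) ^ (l.filter (fun c => c < i)).length * (G i * wd G l)
  | [], _, _ => by simp [wd]
  | j :: l, hl, h => by
    have hij : i ≠ j := fun h' => h (by rw [h']; exact List.mem_cons_self)
    have hil : i ∉ l := fun h' => h (List.mem_cons_of_mem _ h')
    rw [List.pairwise_cons] at hl
    rw [List.orderedInsert_cons]
    by_cases hc : i ≤ j
    · rw [if_pos hc, wd_cons]
      have h1 : (j :: l).filter (fun c => decide (c < i)) = [] := by
        rw [List.filter_eq_nil_iff]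
        intro c hcm
        rw [decide_eq_true_iff, not_lt]
        rcases List.mem_cons.mp hcm with h' | h'
        · rw [h']; exact hc
        · exact hc.trans (hl.1 c h')
      rw [h1, List.length_nil, pow_zero, one_mul]
    · rw [if_neg hc, wd_cons, wd_ins hG i l hl.2 hil, wd_cons,
        List.filter_cons_of_pos (by rw [decide_eq_true_iff]; exact lt_of_not_ge hc),
        List.length_cons, pow_succ]
      have h2 : G i * (G j * wd G l) = -(G j * (G i * wd G l)) := by
        rw [← mul_assoc, hG, neg_mul, mul_assoc]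
      rw [h2]
      have h3 : G j * ((-1) ^ (l.filter (fun c => decide (c < i))).length * (G i * wd G l))
          = (-1) ^ (l.filter (fun c => decide (c < i))).length * (G j * (G i * wd G l)) := by
        have h4 : G j * (-1) ^ (l.filter (fun c => decide (c < i))).length
            = (-1) ^ (l.filter (fun c => decide (c < i))).length * G j :=
          ((Commute.neg_one_left (G j)).pow_left _).eq.symm
        rw [← mul_assoc, h4, mul_assoc]
      rw [h3, mul_neg_one, neg_mul_neg]

/-- the word of a finset -/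
def WI (G : Fin N → O) (I : Finset (Fin N)) : O := wd G (I.sort (· ≤ ·))

lemma WI_empty : WI G ∅ = 1 := by
  unfold WI
  rw [Finset.sort_empty]
  rfl

lemma WI_mem (hG : ∀ i j, G i * G j = -(G j * G i)) {i : Fin N} {I : Finset (Fin N)} (h : i ∈ I) :
    G i * WI G I = 0 :=
  wd_mem hG i _ ((Finset.mem_sort _).mpr h)

lemma WI_insert (hG : ∀ i j, G i * G j = -(G j * G i)) {i : Fin N} {I : Finset (Fin N)}
    (h : i ∉ I) : WI G (insert i I) = sgn ℂ I i • (G i * WI G I) := by
  have hsort : (I.sort (· ≤ ·)).Pairwise (· ≤ ·) := Finset.pairwise_sort I (· ≤ ·)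
  have h1 : (insert i I).sort (· ≤ ·) = (I.sort (· ≤ ·)).orderedInsert (· ≤ ·) i := by
    refine List.Perm.eq_of_pairwise' (r := (· ≤ ·)) (Finset.pairwise_sort _ _)
      (hsort.orderedInsert i _) ?_
    refine List.Perm.trans ?_ (List.perm_orderedInsert _ i _).symm
    refine (List.perm_ext_iff_of_nodup (Finset.sort_nodup _ _) ?_).mpr ?_
    · rw [List.nodup_cons]
      exact ⟨fun h' => h ((Finset.mem_sort _).mp h'), Finset.sort_nodup _ _⟩
    · intro c
      rw [Finset.mem_sort, List.mem_cons, Finset.mem_sort, Finset.mem_insert]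
  unfold WI
  rw [h1, wd_ins hG i _ hsort (fun h' => h ((Finset.mem_sort _).mp h'))]
  have h2 : ((I.sort (· ≤ ·)).filter (fun c => decide (c < i))).length
      = (I.filter (fun c => c < i)).card := by
    rw [← Finset.length_sort (· ≤ ·) (s := I.filter (fun c => c < i))]
    refine List.Perm.length_eq ?_
    refine (List.perm_ext_iff_of_nodup ((Finset.sort_nodup _ _).filter _)
      (Finset.sort_nodup _ _)).mpr ?_
    intro c
    rw [List.mem_filter, Finset.mem_sort, Finset.mem_sort, Finset.mem_filter, decide_eq_true_iff]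
  rw [h2, sgn, Algebra.smul_def, map_pow, map_neg, map_one]

end words

/-! ### the map -/

section map

variable {q N r d : ℕ} {E : Type*} [AddCommGroup E] [Module ℂ E]
  (S : Fk (Fin r) ℂ (Module.End ℂ E) d) (B : Bs (Fin q) ℂ N d) (s : Fin q → MvPolynomial (Fin r) ℂ)
  (κ₀ : E)

/-- exterior multiplication by the image of a basis vector -/
noncomputable def GG (i : Fin N) : Module.End ℂ E := S.Ee (aeval s (B.φ i))

lemma GG_anti (i j : Fin N) : GG S B s i * GG S B s j = -(GG S B s j * GG S B s i) :=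
  S.EeEe _ _

/-- functoriality -/
noncomputable def Psi : (Finset (Fin N) → MvPolynomial (Fin q) ℂ) →ₗ[ℂ] E :=
  ∑ I : Finset (Fin N), ((LinearMap.applyₗ (WI (GG S B s) I κ₀)).comp
    (S.m.comp (aeval s)).toLinearMap).comp (LinearMap.proj I)

lemma Psi_apply (f : Finset (Fin N) → MvPolynomial (Fin q) ℂ) :
    Psi S B s κ₀ f = ∑ I : Finset (Fin N), S.m (aeval s (f I)) (WI (GG S B s) I κ₀) := by
  unfold Psi
  rw [LinearMap.sum_apply]
  rfl

lemma Psi_m (a : MvPolynomial (Fin q) ℂ) (f : Finset (Fin N) → MvPolynomial (Fin q) ℂ) :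
    Psi S B s κ₀ ((SK B).m a f) = S.m (aeval s a) (Psi S B s κ₀ f) := by
  rw [Psi_apply, Psi_apply, map_sum]
  refine Finset.sum_congr rfl fun I _ => ?_
  rw [SK_m, map_mul, map_mul, Module.End.mul_apply]

lemma Psi_smul (a : MvPolynomial (Fin q) ℂ) (f : Finset (Fin N) → MvPolynomial (Fin q) ℂ) :
    Psi S B s κ₀ (a • f) = S.m (aeval s a) (Psi S B s κ₀ f) := Psi_m S B s κ₀ a f

lemma Psi_aE (i : Fin N) (f : Finset (Fin N) → MvPolynomial (Fin q) ℂ) :
    Psi S B s κ₀ (aE ℂ i f) = GG S B s i (Psi S B s κ₀ f) := by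
  classical
  rw [Psi_apply, Psi_apply, map_sum]
  have hanti := GG_anti S B s
  have hcomm : ∀ (a : MvPolynomial (Fin r) ℂ) (w : E),
      GG S B s i (S.m a w) = S.m a (GG S B s i w) := by
    intro a w
    have h := LinearMap.congr_fun (S.mEe a (aeval s (B.φ i))) w
    exact h.symm
  -- split both sums according to `i ∈ I`
  have hL : ∀ I : Finset (Fin N), S.m (aeval s (aE ℂ i f I)) (WI (GG S B s) I κ₀)
      = if i ∈ I then sgn ℂ I i • S.m (aeval s (f (I.erase i))) (WI (GG S B s) I κ₀) else 0 := by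
    intro I
    rw [aE_apply]
    split_ifs
    · rw [map_smul, map_smul, LinearMap.smul_apply]
    · rw [map_zero, map_zero, LinearMap.zero_apply]
  have hR : ∀ I : Finset (Fin N), GG S B s i (S.m (aeval s (f I)) (WI (GG S B s) I κ₀))
      = if i ∉ I then S.m (aeval s (f I)) (GG S B s i (WI (GG S B s) I κ₀)) else 0 := by
    intro I
    rw [hcomm]
    by_cases h : i ∈ I
    · have h1 := LinearMap.congr_fun (WI_mem hanti h) κ₀
      rw [Module.End.mul_apply, LinearMap.zero_apply] at h1
      rw [h1, map_zero, if_neg (not_not.mpr h)]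
    · rw [if_pos h]
  rw [Finset.sum_congr rfl fun I _ => hL I, Finset.sum_congr rfl fun I _ => hR I,
    ← Finset.sum_filter, ← Finset.sum_filter]
  refine Finset.sum_bij' (fun I _ => I.erase i) (fun I _ => insert i I) ?_ ?_ ?_ ?_ ?_
  · intro I hI
    rw [Finset.mem_filter] at hI ⊢
    exact ⟨Finset.mem_univ _, Finset.notMem_erase _ _⟩
  · intro I hI
    rw [Finset.mem_filter] at hI ⊢
    exact ⟨Finset.mem_univ _, Finset.mem_insert_self _ _⟩
  · intro I hI
    exact Finset.insert_erase (Finset.mem_filter.mp hI).2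
  · intro I hI
    exact Finset.erase_insert (Finset.mem_filter.mp hI).2
  · intro I hI
    have hi := (Finset.mem_filter.mp hI).2
    have h1 := WI_insert hanti (Finset.notMem_erase i I)
    rw [Finset.insert_erase hi, sgn_erase_self] at h1
    rw [h1, LinearMap.smul_apply, map_smul, smul_smul, sgn_sq, one_smul]
    rfl

lemma Psi_vac : Psi S B s κ₀ (vac q N) = κ₀ := by
  rw [Psi_apply, Finset.sum_eq_single ∅]
  · rw [WI_empty]
    simp [vac]
  · intro I _ hI
    simp [vac, hI]
  · intro h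
    exact absurd (Finset.mem_univ _) h

lemma Psi_Ee {p : MvPolynomial (Fin q) ℂ} (hp : p.IsHomogeneous d)
    (f : Finset (Fin N) → MvPolynomial (Fin q) ℂ) :
    Psi S B s κ₀ ((SK B).Ee p f) = S.Ee (aeval s p) (Psi S B s κ₀ f) := by
  rw [F1_Ee, map_sum]
  conv_rhs => rw [← F1_co1 B p hp, map_sum, map_sum, LinearMap.sum_apply]
  refine Finset.sum_congr rfl fun i _ => ?_
  rw [map_smul, Psi_aE, map_smul, map_smul]
  rfl

lemma aeval_hom {s : Fin q → MvPolynomial (Fin r) ℂ} (hs : ∀ i, (s i).IsHomogeneous 1)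
    {p : MvPolynomial (Fin q) ℂ} {j : ℕ} (hp : p.IsHomogeneous j) :
    (aeval s p : MvPolynomial (Fin r) ℂ).IsHomogeneous j := by
  have h := hp.aeval s hs
  rwa [one_mul] at h

lemma del_vac' : (SK B).del (vac q N) = 0 := by
  funext I
  rw [SK_del]
  refine Finset.sum_eq_zero fun i _ => ?_
  rw [aJ_GK0 vac_mem]
  exact mul_zero _

lemma sg_apply (n : ℕ) {V : Type*} [AddCommGroup V] [Module ℂ V] (A : Module.End ℂ V) (v : V) :
    ((-1) ^ n * A) v = (-1 : ℂ) ^ n • A v := by
  rcases Nat.even_or_odd n with hn | hn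
  · rw [hn.neg_one_pow, hn.neg_one_pow, one_mul, one_smul]
  · rw [hn.neg_one_pow, hn.neg_one_pow, neg_one_mul, LinearMap.neg_apply, neg_one_smul]

lemma Psi_del (hs : ∀ i, (s i).IsHomogeneous 1) (hκ₀ : S.del κ₀ = 0)
    (f : Finset (Fin N) → MvPolynomial (Fin q) ℂ) :
    Psi S B s κ₀ ((SK B).del f) = S.del (Psi S B s κ₀ f) := by
  classical
  -- basis vectors
  have hb : ∀ I : Finset (Fin N),
      Psi S B s κ₀ ((SK B).del (Pi.single I 1)) = S.del (Psi S B s κ₀ (Pi.single I 1)) := by
    intro I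
    induction I using Finset.induction_on with
    | empty =>
      have h0 : (Pi.single ∅ 1 : Finset (Fin N) → MvPolynomial (Fin q) ℂ) = vac q N := by
        funext I
        unfold vac
        rw [Pi.single_apply]
      rw [h0, del_vac', map_zero, Psi_vac, hκ₀]
    | insert i I hi ih =>
      have h0 : (Pi.single (insert i I) 1 : Finset (Fin N) → MvPolynomial (Fin q) ℂ)
          = sgn ℂ I i • aE ℂ i (Pi.single I 1) := by
        funext J
        rw [Pi.smul_apply, aE_apply]
        by_cases hJ : J = insert i I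
        · subst hJ
          rw [Pi.single_eq_same, if_pos (Finset.mem_insert_self _ _), Finset.erase_insert hi,
            Pi.single_eq_same, sgn_insert_self, smul_smul, sgn_sq, one_smul]
        · rw [Pi.single_eq_of_ne hJ]
          split_ifs with h
          · rw [Pi.single_eq_of_ne, smul_zero, smul_zero]
            intro h'
            exact hJ (by rw [← h', Finset.insert_erase h])
          · rw [smul_zero]
      rw [h0, map_smul, map_smul, map_smul, map_smul, F1_del_aE, map_sub, Psi_smul, Psi_aE, Psi_aE,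
        ih]
      congr 1
      have h1 := LinearMap.congr_fun (S.del_Ee (aeval_hom hs (B.hom i)))
        (Psi S B s κ₀ (Pi.single I 1))
      rw [Module.End.mul_apply, LinearMap.sub_apply, Module.End.mul_apply] at h1
      exact h1.symm
  have hf : f = ∑ I : Finset (Fin N), f I • (Pi.single I 1 : Finset (Fin N) → MvPolynomial (Fin q) ℂ) := by
    funext J
    rw [Finset.sum_apply, Finset.sum_eq_single J]
    · rw [Pi.smul_apply, Pi.single_eq_same, smul_eq_mul, mul_one]
    · intro I _ hI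
      rw [Pi.smul_apply, Pi.single_eq_of_ne hI.symm, smul_zero]
    · intro h
      exact absurd (Finset.mem_univ _) h
  rw [hf, map_sum, map_sum, map_sum, map_sum]
  refine Finset.sum_congr rfl fun I _ => ?_
  rw [F1_del_smul, Psi_smul, Psi_smul, hb]
  have h1 := LinearMap.congr_fun (S.del_m (aeval s (f I))) (Psi S B s κ₀ (Pi.single I 1))
  rw [Module.End.mul_apply, Module.End.mul_apply] at h1
  exact h1.symm

variable {I : Type*} [DecidableEq I]

lemma Psi_Ep (y : I → MvPolynomial (Fin q) ℂ) (T : List (MvPolynomial (Fin q) ℂ)) :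
    ∀ (R : Finset I), (∀ i ∈ R, ∀ u ∈ T, (y i * u).IsHomogeneous d) →
      ∀ f, Psi S B s κ₀ (Ep (SK B) y T R f)
        = Ep S (fun i => aeval s (y i)) (T.map (aeval s)) R (Psi S B s κ₀ f) := by
  induction T with
  | nil =>
    intro R _ f
    rw [List.map_nil, Ep_nil, Ep_nil]
    split_ifs
    · rfl
    · rw [LinearMap.zero_apply, LinearMap.zero_apply, map_zero]
  | cons u T ih =>
    intro R h f
    rw [List.map_cons, Ep_cons, Ep_cons, LinearMap.sum_apply, LinearMap.sum_apply, map_sum]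
    refine Finset.sum_congr rfl fun i hi => ?_
    rw [Module.End.mul_apply, Module.End.mul_apply,
      ih (R.erase i) (fun j hj v hv => h j (Finset.mem_of_mem_erase hj) v
        (List.mem_cons_of_mem _ hv)), Psi_Ee S B s κ₀ (h i hi u List.mem_cons_self), map_mul]

lemma Psi_Cp (y : I → MvPolynomial (Fin q) ℂ) (T : List (MvPolynomial (Fin q) ℂ)) :
    ∀ (R : Finset I), (∀ i ∈ R, ∀ u ∈ T, (y i * u).IsHomogeneous d) →
      ∀ f, Psi S B s κ₀ (Cp (SK B) y T R f)
        = Cp S (fun i => aeval s (y i)) (T.map (aeval s)) R (Psi S B s κ₀ f) := by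
  induction T with
  | nil =>
    intro R _ f
    rw [List.map_nil, Cp_nil, Cp_nil, LinearMap.zero_apply, LinearMap.zero_apply, map_zero]
  | cons u T ih =>
    intro R h f
    rw [List.map_cons, Cp_cons, Cp_cons, LinearMap.add_apply, LinearMap.add_apply, map_add,
      LinearMap.sum_apply, LinearMap.sum_apply, map_sum, sg_apply, sg_apply, map_smul, List.length_map]
    congr 1
    · congr 1
      rw [Module.End.mul_apply, Module.End.mul_apply, Psi_m, Psi_Ep S B s κ₀ y T R
        (fun j hj v hv => h j hj v (List.mem_cons_of_mem _ hv))]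
    · refine Finset.sum_congr rfl fun i hi => ?_
      rw [Module.End.mul_apply, Module.End.mul_apply,
        ih (R.erase i) (fun j hj v hv => h j (Finset.mem_of_mem_erase hj) v
          (List.mem_cons_of_mem _ hv)), Psi_Ee S B s κ₀ (h i hi u List.mem_cons_self), map_mul]

/-- `ρ` on a row -/
noncomputable def rowMap (s : Fin q → MvPolynomial (Fin r) ℂ)
    (c : Finset I × List (MvPolynomial (Fin q) ℂ)) : Finset I × List (MvPolynomial (Fin r) ℂ) :=
  (c.1, c.2.map (aeval s))

lemma Psi_Pr (y : I → MvPolynomial (Fin q) ℂ) (l : List (Finset I × List (MvPolynomial (Fin q) ℂ)))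
    (h : ∀ c ∈ l, ∀ i ∈ c.1, ∀ u ∈ c.2, (y i * u).IsHomogeneous d)
    (f : Finset (Fin N) → MvPolynomial (Fin q) ℂ) :
    Psi S B s κ₀ (Pr (SK B) y l f)
      = Pr S (fun i => aeval s (y i)) (l.map (rowMap s)) (Psi S B s κ₀ f) := by
  induction l with
  | nil => rfl
  | cons c l ih =>
    rw [List.map_cons, Pr_cons, Pr_cons, Module.End.mul_apply, Module.End.mul_apply,
      Psi_Cp S B s κ₀ y c.2 c.1 (h c List.mem_cons_self),
      ih (fun c' hc' => h c' (List.mem_cons_of_mem _ hc'))]
    rfl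

/-- **boundaries go to boundaries** -/
theorem push_range (hs : ∀ i, (s i).IsHomogeneous 1) (hκ₀ : S.del κ₀ = 0)
    (y : I → MvPolynomial (Fin q) ℂ) (l : List (Finset I × List (MvPolynomial (Fin q) ℂ)))
    (h : ∀ c ∈ l, ∀ i ∈ c.1, ∀ u ∈ c.2, (y i * u).IsHomogeneous d) (g : MvPolynomial (Fin q) ℂ)
    (hr : Pr (SK B) y l ((SK B).m g (vac q N)) ∈ LinearMap.range (SK B).del) :
    Pr S (fun i => aeval s (y i)) (l.map (rowMap s)) (S.m (aeval s g) κ₀)
      ∈ LinearMap.range S.del := by
  obtain ⟨ω, hω⟩ := hr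
  refine ⟨Psi S B s κ₀ ω, ?_⟩
  rw [← Psi_del S B s κ₀ hs hκ₀, hω, Psi_Pr S B s κ₀ y l h, Psi_m, Psi_vac]

end map

/-! ### gradings -/

section grad

variable {r N d : ℕ} (B : Bs (Fin r) ℂ N d) {I : Type*} [DecidableEq I]

lemma Ee_GK {p m : ℕ} {f : Finset (Fin N) → MvPolynomial (Fin r) ℂ} (h : f ∈ GK (Fin r) ℂ N p m)
    (e : MvPolynomial (Fin r) ℂ) : (SK B).Ee e f ∈ GK (Fin r) ℂ N (p + 1) m := by
  rw [F1_Ee]
  exact Submodule.sum_mem _ fun i _ => Submodule.smul_mem _ _ (aE_GK h i)

lemma Ep_GK (y : I → MvPolynomial (Fin r) ℂ) (T : List (MvPolynomial (Fin r) ℂ)) :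
    ∀ (R : Finset I) {p m : ℕ} {f : Finset (Fin N) → MvPolynomial (Fin r) ℂ},
      f ∈ GK (Fin r) ℂ N p m → Ep (SK B) y T R f ∈ GK (Fin r) ℂ N (p + T.length) m := by
  induction T with
  | nil =>
    intro R p m f h
    rw [Ep_nil]
    split_ifs
    · exact h
    · exact Submodule.zero_mem _
  | cons u T ih =>
    intro R p m f h
    rw [Ep_cons, LinearMap.sum_apply]
    refine Submodule.sum_mem _ fun i _ => ?_
    rw [Module.End.mul_apply, List.length_cons, add_comm T.length 1, ← add_assoc]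
    exact ih _ (Ee_GK B h _)

lemma Cp_GK (y : I → MvPolynomial (Fin r) ℂ) (T : List (MvPolynomial (Fin r) ℂ)) :
    ∀ (n : ℕ), T.length = n + 1 → (∀ u ∈ T, u.IsHomogeneous 1) → ∀ (R : Finset I) {p m : ℕ}
      {f : Finset (Fin N) → MvPolynomial (Fin r) ℂ},
      f ∈ GK (Fin r) ℂ N p m → Cp (SK B) y T R f ∈ GK (Fin r) ℂ N (p + n) (m + 1) := by
  induction T with
  | nil => intro n h; simp at h
  | cons u T ih =>
    intro n hn hT R p m f h
    rw [List.length_cons, Nat.add_right_cancel_iff] at hn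
    rw [Cp_cons, LinearMap.add_apply, LinearMap.sum_apply]
    refine Submodule.add_mem _ ?_ (Submodule.sum_mem _ fun i _ => ?_)
    · rw [sg_apply]
      refine Submodule.smul_mem _ _ ?_
      rw [Module.End.mul_apply]
      have h1 := Ep_GK B y T R h
      rw [hn] at h1
      exact (AK B).Gm (hT u List.mem_cons_self) h1
    · rw [Module.End.mul_apply]
      rcases n with _ | n
      · rw [List.length_eq_zero_iff.mp hn, Cp_nil, LinearMap.zero_apply]
        exact Submodule.zero_mem _
      · have h1 := ih n hn (fun v hv => hT v (List.mem_cons_of_mem _ hv)) (R.erase i)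
          (Ee_GK B h (y i * u))
        have h2 : p + (n + 1) = p + 1 + n := by omega
        rw [h2]
        exact h1

lemma Pr_GK (y : I → MvPolynomial (Fin r) ℂ)
    (l : List (Finset I × List (MvPolynomial (Fin r) ℂ)))
    (hlen : ∀ c ∈ l, c.2.length = c.1.card + 1) (hT : ∀ c ∈ l, ∀ u ∈ c.2, u.IsHomogeneous 1)
    {p m : ℕ} {f : Finset (Fin N) → MvPolynomial (Fin r) ℂ} (h : f ∈ GK (Fin r) ℂ N p m) :
    Pr (SK B) y l f ∈ GK (Fin r) ℂ N (p + wt l) (m + l.length) := by
  induction l with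
  | nil =>
    rw [Pr_nil]
    exact h
  | cons c l ih =>
    rw [Pr_cons, Module.End.mul_apply, wt_cons, List.length_cons]
    have h1 := ih (fun c' hc' => hlen c' (List.mem_cons_of_mem _ hc'))
      (fun c' hc' => hT c' (List.mem_cons_of_mem _ hc'))
    have h2 := Cp_GK B y c.2 c.1.card (hlen c List.mem_cons_self) (hT c List.mem_cons_self) c.1 h1
    have h3 : p + (c.1.card + wt l) = p + wt l + c.1.card := by omega
    rw [h3, ← add_assoc]
    exact h2

/-- products of rows are cycles -/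
lemma Pr_cycle {y : I → MvPolynomial (Fin r) ℂ}
    {l : List (Finset I × List (MvPolynomial (Fin r) ℂ))}
    (h : ∀ c ∈ l, ∀ i ∈ c.1, ∀ u ∈ c.2, (y i * u).IsHomogeneous d) (g : MvPolynomial (Fin r) ℂ) :
    (SK B).del (Pr (SK B) y l ((SK B).m g (vac r N))) = 0 := by
  have h1 := LinearMap.congr_fun (del_Pr (SK B) y l h) ((SK B).m g (vac r N))
  rw [Module.End.mul_apply, sg_apply, Module.End.mul_apply] at h1
  have h2 := LinearMap.congr_fun ((SK B).del_m g) (vac r N)
  rw [Module.End.mul_apply, Module.End.mul_apply, del_vac', map_zero] at h2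
  rw [h1, h2, map_zero, smul_zero]

end grad

/-! ### the monomial basis -/

/-- there is a basis of the forms of degree `d` -/
lemma exists_basis (r d : ℕ) : ∃ (N : ℕ) (B : Bs (Fin r) ℂ N d), LinearIndependent ℂ B.φ ∧
    Submodule.span ℂ (Set.range B.φ) = homogeneousSubmodule (Fin r) ℂ d := by
  classical
  obtain ⟨φ, hφ⟩ : ∃ φ : Fin (Mo (Fin r) d).card → MvPolynomial (Fin r) ℂ,
      φ = fun i => monomial (((Mo (Fin r) d).equivFin.symm i : Mo (Fin r) d) : Fin r →₀ ℕ) 1 :=
    ⟨_, rfl⟩
  have hom : ∀ i, φ i ∈ homogeneousSubmodule (Fin r) ℂ d := by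
    intro i
    rw [hφ]
    exact isHomogeneous_monomial _ (mem_Mo.mp ((Mo (Fin r) d).equivFin.symm i).2)
  have hli : LinearIndependent ℂ φ := by
    have h3 := (basisMonomials (Fin r) ℂ).linearIndependent
    have h4 := h3.comp (fun i => (((Mo (Fin r) d).equivFin.symm i : Mo (Fin r) d) : Fin r →₀ ℕ))
      (Subtype.val_injective.comp (Mo (Fin r) d).equivFin.symm.injective)
    rw [coe_basisMonomials] at h4
    rw [hφ]
    exact h4
  have hsp : Submodule.span ℂ (Set.range φ) = homogeneousSubmodule (Fin r) ℂ d := by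
    refine le_antisymm (Submodule.span_le.mpr ?_) ?_
    · rintro _ ⟨i, rfl⟩
      exact hom i
    · intro p hp
      rw [p.as_sum]
      refine Submodule.sum_mem _ fun μ hμ => ?_
      have h5 : μ ∈ Mo (Fin r) d := mem_Mo_of_coeff hp (mem_support_iff.mp hμ)
      have h6 : monomial μ (coeff μ p) = coeff μ p • monomial μ (1 : ℂ) := by
        rw [smul_monomial, smul_eq_mul, mul_one]
      rw [h6]
      refine Submodule.smul_mem _ _ (Submodule.subset_span ⟨(Mo (Fin r) d).equivFin ⟨μ, h5⟩, ?_⟩)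
      rw [hφ]
      simp
  obtain ⟨B, hB⟩ := exists_Bs φ hom hli hsp
  exact ⟨_, B, by rw [hB]; exact hli, by rw [hB]; exact hsp⟩

/-! ### plane configurations -/

section plane

variable {r e : ℕ} {E : Type*} [AddCommGroup E] [Module ℂ E]
  (S : Fk (Fin r) ℂ (Module.End ℂ E) (e + 1)) {κ₀ : E} {I : Type*} [DecidableEq I]

/-- products of rows which come from the plane are boundaries in Green's range -/
theorem range_of_plane (hκ₀ : S.del κ₀ = 0) {s : Fin 3 → MvPolynomial (Fin r) ℂ}
    (hs : ∀ i, (s i).IsHomogeneous 1) {y : I → MvPolynomial (Fin 3) ℂ}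
    {l : List (Finset I × List (MvPolynomial (Fin 3) ℂ))}
    (hy : ∀ c ∈ l, ∀ i ∈ c.1, (y i).IsHomogeneous e)
    (hlen : ∀ c ∈ l, c.2.length = c.1.card + 1) (hT : ∀ c ∈ l, ∀ u ∈ c.2, u.IsHomogeneous 1)
    {g : MvPolynomial (Fin 3) ℂ} {K : ℕ} (hlK : l.length ≤ K) (hg : g.IsHomogeneous (K - l.length))
    (hK : (2 * (e + 1) ≤ K ∧ wt l + 3 ≤ 3 * (e + 1)) ∨
      (2 * (e + 1) ≤ K + 1 ∧ wt l + 2 ≤ 2 * (e + 1))) :
    Pr S (fun i => aeval s (y i)) (l.map (rowMap s)) (S.m (aeval s g) κ₀)
      ∈ LinearMap.range S.del := by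
  obtain ⟨N, B, hli, hsp⟩ := exists_basis 3 (e + 1)
  have hyu : ∀ c ∈ l, ∀ i ∈ c.1, ∀ u ∈ c.2, (y i * u).IsHomogeneous (e + 1) :=
    fun c hc i hi u hu => (hy c hc i hi).mul (hT c hc u hu)
  refine push_range S B s κ₀ hs hκ₀ y l hyu g ?_
  have h1 : (SK B).m g (vac 3 N) ∈ GK (Fin 3) ℂ N 0 (0 + (K - l.length)) :=
    (AK B).Gm hg vac_mem
  have h2 := Pr_GK B y l hlen hT h1
  rw [zero_add, zero_add, Nat.sub_add_cancel hlK] at h2
  obtain ⟨ω, -, hω⟩ := green_plane_SK (by omega) B hli hsp hK h2 (Pr_cycle B hyu g)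
  exact ⟨ω, hω⟩

/-- forms of degree `j` in three linear forms `s` -/
noncomputable def Im3 (s : Fin 3 → MvPolynomial (Fin r) ℂ) (j : ℕ) :
    Submodule ℂ (MvPolynomial (Fin r) ℂ) :=
  (homogeneousSubmodule (Fin 3) ℂ j).map (aeval s : MvPolynomial (Fin 3) ℂ →ₐ[ℂ] _).toLinearMap

lemma mem_Im3 {s : Fin 3 → MvPolynomial (Fin r) ℂ} {j : ℕ} {p : MvPolynomial (Fin r) ℂ} :
    p ∈ Im3 s j ↔ ∃ p₀ : MvPolynomial (Fin 3) ℂ, p₀.IsHomogeneous j ∧ aeval s p₀ = p := by
  unfold Im3
  rw [Submodule.mem_map]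
  rfl

lemma Im3_self (s : Fin 3 → MvPolynomial (Fin r) ℂ) (i : Fin 3) : s i ∈ Im3 s 1 :=
  mem_Im3.mpr ⟨X i, isHomogeneous_X _ _, aeval_X _ _⟩

lemma Im3_one (s : Fin 3 → MvPolynomial (Fin r) ℂ) : (1 : MvPolynomial (Fin r) ℂ) ∈ Im3 s 0 :=
  mem_Im3.mpr ⟨1, isHomogeneous_one _ _, map_one _⟩

lemma Im3_mul {s : Fin 3 → MvPolynomial (Fin r) ℂ} {i j : ℕ} {p q : MvPolynomial (Fin r) ℂ}
    (hp : p ∈ Im3 s i) (hq : q ∈ Im3 s j) : p * q ∈ Im3 s (i + j) := by
  obtain ⟨p₀, hp₀, rfl⟩ := mem_Im3.mp hp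
  obtain ⟨q₀, hq₀, rfl⟩ := mem_Im3.mp hq
  exact mem_Im3.mpr ⟨p₀ * q₀, hp₀.mul hq₀, map_mul _ _ _⟩

lemma Im3_prod {s : Fin 3 → MvPolynomial (Fin r) ℂ} {ι : Type*} (A : Finset ι)
    {f : ι → MvPolynomial (Fin r) ℂ} (hf : ∀ i ∈ A, f i ∈ Im3 s 1) :
    ∏ i ∈ A, f i ∈ Im3 s A.card := by
  classical
  induction A using Finset.induction_on with
  | empty => exact Im3_one s
  | insert a A ha ih =>
    rw [Finset.prod_insert ha, Finset.card_insert_of_notMem ha, add_comm]
    exact Im3_mul (hf a (Finset.mem_insert_self _ _))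
      (ih fun i hi => hf i (Finset.mem_insert_of_mem hi))

/-- products of rows, all of whose letters are forms in three linear forms `s`, are boundaries in
Green's range -/
theorem range_of_letters (hκ₀ : S.del κ₀ = 0) {s : Fin 3 → MvPolynomial (Fin r) ℂ}
    (hs : ∀ i, (s i).IsHomogeneous 1) {y : I → MvPolynomial (Fin r) ℂ}
    {l : List (Finset I × List (MvPolynomial (Fin r) ℂ))}
    (hy : ∀ c ∈ l, ∀ i ∈ c.1, y i ∈ Im3 s e)
    (hlen : ∀ c ∈ l, c.2.length = c.1.card + 1) (hT : ∀ c ∈ l, ∀ u ∈ c.2, u ∈ Im3 s 1)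
    {g : MvPolynomial (Fin r) ℂ} {K : ℕ} (hlK : l.length ≤ K) (hg : g ∈ Im3 s (K - l.length))
    (hK : (2 * (e + 1) ≤ K ∧ wt l + 3 ≤ 3 * (e + 1)) ∨
      (2 * (e + 1) ≤ K + 1 ∧ wt l + 2 ≤ 2 * (e + 1))) :
    Pr S y l (S.m g κ₀) ∈ LinearMap.range S.del := by
  classical
  have hch : ∀ (j : ℕ) (p : MvPolynomial (Fin r) ℂ), ∃ p₀ : MvPolynomial (Fin 3) ℂ,
      p₀.IsHomogeneous j ∧ (p ∈ Im3 s j → aeval s p₀ = p) := by
    intro j p
    by_cases h : p ∈ Im3 s j
    · obtain ⟨p₀, h1, h2⟩ := mem_Im3.mp h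
      exact ⟨p₀, h1, fun _ => h2⟩
    · exact ⟨0, isHomogeneous_zero _ _ _, fun h' => absurd h' h⟩
  choose c hc1 hc2 using hch
  have h := range_of_plane S hκ₀ hs (y := fun i => c e (y i))
    (l := l.map fun q => (q.1, q.2.map (c 1))) (g := c (K - l.length) g) (K := K) ?_ ?_ ?_ ?_ ?_ ?_
  · have h1 : (l.map fun q => (q.1, q.2.map (c 1))).map (rowMap s) = l := by
      rw [List.map_map]
      conv_rhs => rw [← List.map_id l]
      refine List.map_congr_left fun q hq => ?_
      have h2 : (q.2.map (c 1)).map (aeval s) = q.2 := by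
        rw [List.map_map]
        conv_rhs => rw [← List.map_id q.2]
        exact List.map_congr_left fun u hu => hc2 1 u (hT q hq u hu)
      rw [Function.comp_apply, rowMap, h2]
      rfl
    rw [h1, hc2 _ g hg] at h
    rw [Pr_congr S y (fun i => aeval s (c e (y i))) l
      (fun q hq i hi => (hc2 e (y i) (hy q hq i hi)).symm)]
    exact h
  · intro q _ i _
    exact hc1 e (y i)
  · intro q hq
    obtain ⟨q', hq', rfl⟩ := List.mem_map.mp hq
    rw [List.length_map]
    exact hlen q' hq'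
  · intro q hq u hu
    obtain ⟨q', hq', rfl⟩ := List.mem_map.mp hq
    obtain ⟨u', -, rfl⟩ := List.mem_map.mp hu
    exact hc1 1 u'
  · rw [List.length_map]
    exact hlK
  · rw [List.length_map]
    exact hc1 _ g
  · have h2 : wt (l.map fun q => (q.1, q.2.map (c 1))) = wt l := by
      unfold wt
      rw [List.map_map]
      rfl
    rw [h2]
    exact hK

end plane

end Pool.Agent.H34.GP
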