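import Pool.Agent.H34.GP.Dual

/-!
# Green's vanishing theorem, elementary proof: the theorem

`green` : `r` variables, `φ : Fin N → P_d` linearly independent, all `X_i ^ d` in its span; if
`K + K' + r = r d`, `d ≤ K` and `(number of monomials of degree K') + r + a ≤ N`, the Koszul complex
of `φ` is exact at exterior degree `a` and coefficient degree `K`.
`green_large` : the same for `K + r > r d` and all `a` with `a + r ≤ N`.
`green_plane` : `r = 3`, `φ` a basis of the forms of degree `d`: exact for `K = 2 d`, `a + 3 ≤ 3 d`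
and for `K = 2 d - 1`, `a + 2 ≤ 2 d`.
-/

set_option autoImplicit false
set_option linter.unusedSectionVars false

open MvPolynomial

namespace Pool.Agent.H34.GP

open Pool.Agent.H27.OP

variable {r N : ℕ}

/-- `KP` as a linear map -/
noncomputable def KPL (φ : Fin N → MvPolynomial (Fin r) ℂ) :
    Module.End ℂ (Finset (Fin N) → MvPolynomial (Fin r) ℂ) where
  toFun f := KP φ f
  map_add' f g := by
    funext I
    unfold KP
    rw [Pi.add_apply, ← Finset.sum_add_distrib]
    refine Finset.sum_congr rfl fun b _ => ?_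
    rw [map_add, Pi.add_apply, _root_.mul_add]
  map_smul' t f := by
    funext I
    unfold KP
    rw [Pi.smul_apply, RingHom.id_apply, Finset.smul_sum]
    refine Finset.sum_congr rfl fun b _ => ?_
    rw [map_smul, Pi.smul_apply, mul_smul_comm]

lemma KPL_apply (φ : Fin N → MvPolynomial (Fin r) ℂ)
    (f : Finset (Fin N) → MvPolynomial (Fin r) ℂ) : KPL φ f = KP φ f := rfl

/-- polynomial chains of exterior degree `a` and degree `K` -/
def CS (r N a K : ℕ) : Submodule ℂ (Finset (Fin N) → MvPolynomial (Fin r) ℂ) where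
  carrier := {f | ∀ I, (f I).IsHomogeneous K ∧ (I.card ≠ a → f I = 0)}
  add_mem' := by
    intro f g hf hg I
    refine ⟨(hf I).1.add (hg I).1, fun h => ?_⟩
    rw [Pi.add_apply, (hf I).2 h, (hg I).2 h, add_zero]
  zero_mem' := fun I => ⟨isHomogeneous_zero _ _ _, fun _ => rfl⟩
  smul_mem' := by
    intro t f hf I
    refine ⟨?_, fun h => by rw [Pi.smul_apply, (hf I).2 h, smul_zero]⟩
    rw [Pi.smul_apply, smul_eq_C_mul]
    exact (hf I).1.C_mul t

lemma KP_mem {φ : Fin N → MvPolynomial (Fin r) ℂ} {d : ℕ} (hφ : ∀ b, (φ b).IsHomogeneous d)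
    {a K : ℕ} {g : Finset (Fin N) → MvPolynomial (Fin r) ℂ} (hg : g ∈ CS r N (a + 1) K) :
    KP φ g ∈ CS r N a (K + d) := by
  intro I
  unfold KP
  refine ⟨?_, fun h => ?_⟩
  · refine IsHomogeneous.sum _ _ _ fun b _ => ?_
    rw [add_comm K d]
    refine (hφ b).mul ?_
    rw [aJ_apply]
    split_ifs
    · exact isHomogeneous_zero _ _ _
    · rw [smul_eq_C_mul]
      exact (hg _).1.C_mul _
  · refine Finset.sum_eq_zero fun b _ => ?_
    rw [aJ_apply]
    split_ifs with hb
    · rw [mul_zero]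
    · rw [(hg (insert b I)).2 (by rw [Finset.card_insert_of_notMem hb]; omega), smul_zero, mul_zero]

/-- `-1 - e` -/
noncomputable def mu (e : Fin r → ℤ) : Fin r →₀ ℕ :=
  Finsupp.equivFunOnFinite.symm fun i => (-1 - e i).toNat

lemma mu_apply (e : Fin r → ℤ) (i : Fin r) : mu e i = (-1 - e i).toNat := rfl

lemma mu_sh (κ : Fin r →₀ ℕ) : mu (sh (m1 r) κ) = κ := by
  ext i
  rw [mu_apply]
  unfold sh m1
  omega

lemma sh_mu {e : Fin r → ℤ} (he : e ∈ TT r r) : sh (m1 r) (mu e) = e := by
  funext i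
  have h := he.1 i i.2
  unfold sh m1
  rw [mu_apply]
  omega

lemma sh_m1_mem (κ : Fin r →₀ ℕ) : sh (m1 r) κ ∈ TT r r := by
  refine ⟨fun i _ => ?_, fun i hi => absurd i.2 (by omega)⟩
  unfold sh m1
  omega

lemma sum_sh_m1 (κ : Fin r →₀ ℕ) : ∑ i, sh (m1 r) κ i = -(r : ℤ) - (∑ i, κ i : ℕ) := by
  rw [sum_sh]
  unfold m1
  simp

theorem dual_main {φ : Fin N → MvPolynomial (Fin r) ℂ} {d : ℕ} (hφ : ∀ b, (φ b).IsHomogeneous d)
    {K a : ℕ} (ha : a ≤ N) (hdK : d ≤ K) (hex : Ex φ (TT r r) (N - a) (-(r : ℤ) - K))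
    {f : Finset (Fin N) → MvPolynomial (Fin r) ℂ} (hf : f ∈ CS r N a K) (hcyc : KP φ f = 0) :
    ∃ g ∈ CS r N (a + 1) (K - d), KP φ g = f := by
  classical
  by_contra hcon
  have hnot : f ∉ (CS r N (a + 1) (K - d)).map (KPL φ) := by
    intro h
    obtain ⟨g, hg, hg'⟩ := Submodule.mem_map.mp h
    exact hcon ⟨g, hg, hg'⟩
  obtain ⟨lam, hlam, hmap⟩ := Submodule.exists_dual_map_eq_bot_of_notMem hnot inferInstance
  have hlam0 : ∀ g ∈ CS r N (a + 1) (K - d), lam (KP φ g) = 0 := by
    intro g hg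
    have h1 : lam (KP φ g) ∈ ((CS r N (a + 1) (K - d)).map (KPL φ)).map lam :=
      Submodule.mem_map_of_mem (Submodule.mem_map_of_mem hg)
    rw [hmap] at h1
    exact (Submodule.mem_bot ℂ).mp h1
  -- the dual chain
  obtain ⟨Λ, hΛ⟩ : ∃ Λ : Finset (Fin N) → Fn r, ∀ I e, Λ I e =
      if Iᶜ.card = a ∧ e ∈ TT r r ∧ ∑ i, e i = -(r : ℤ) - K then
        eps I * lam (Pi.single Iᶜ (monomial (mu e) 1)) else 0 := ⟨_, fun _ _ => rfl⟩
  have hpair : ∀ h ∈ CS r N a K, pair Λ h = lam h := by
    intro h hh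
    have h1 : ∀ J, eps Jᶜ * mul (h J) (Λ Jᶜ) (m1 r) = lam (Pi.single J (h J)) := by
      intro J
      rw [mul_apply]
      have h2 : ∀ κ ∈ (h J).support, coeff κ (h J) * Λ Jᶜ (sh (m1 r) κ)
          = eps Jᶜ * lam (Pi.single J (monomial κ (coeff κ (h J)))) := by
        intro κ hκ
        have h3 : J.card = a := by
          by_contra h4
          rw [(hh J).2 h4] at hκ
          simp at hκ
        have h4 : ∑ i, sh (m1 r) κ i = -(r : ℤ) - K := by
          rw [sum_sh_m1, deg_of_mem (hh J).1 hκ]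
        rw [hΛ, if_pos ⟨by rw [compl_compl]; exact h3, sh_m1_mem κ, h4⟩, mu_sh, compl_compl]
        have h5 : (Pi.single J (monomial κ (coeff κ (h J))) :
            Finset (Fin N) → MvPolynomial (Fin r) ℂ)
            = coeff κ (h J) • Pi.single J (monomial κ 1) := by
          rw [← Pi.single_smul, smul_monomial, smul_eq_mul, mul_one]
        rw [h5, map_smul, smul_eq_mul]
        ring
      rw [Finset.sum_congr rfl h2, ← Finset.mul_sum, ← mul_assoc, eps_sq, one_mul, ← map_sum]
      congr 1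
      conv_rhs => rw [(h J).as_sum]
      exact (map_sum (LinearMap.single ℂ (fun _ : Finset (Fin N) => MvPolynomial (Fin r) ℂ) J)
        _ _).symm
    unfold pair
    rw [Finset.sum_congr rfl fun J _ => h1 J, ← map_sum]
    congr 1
    exact Finset.univ_sum_single h
  -- `Λ` is a cycle
  have hKΛ : ∀ I, ∀ e ∈ TT r r, KO φ Λ I e = 0 := by
    intro I e he
    by_cases hc : Iᶜ.card = a + 1 ∧ ∑ i, e i = -(r : ℤ) - (K - d : ℕ)
    · have hdeg : ∑ i, mu e i = K - d := by
        have h1 := sum_sh_m1 (mu e)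
        rw [sh_mu he, hc.2] at h1
        omega
      have hg : (Pi.single Iᶜ (monomial (mu e) 1) : Finset (Fin N) → MvPolynomial (Fin r) ℂ)
          ∈ CS r N (a + 1) (K - d) := by
        intro J
        by_cases hJ : J = Iᶜ
        · subst hJ
          rw [Pi.single_eq_same]
          refine ⟨isHomogeneous_monomial _ ?_, fun h => absurd hc.1 h⟩
          rw [Finsupp.degree_eq_sum]
          exact hdeg
        · rw [Pi.single_eq_of_ne hJ]
          exact ⟨isHomogeneous_zero _ _ _, fun _ => rfl⟩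
      have hKg : KP φ (Pi.single Iᶜ (monomial (mu e) 1)) ∈ CS r N a K := by
        have h1 := KP_mem hφ hg
        rwa [Nat.sub_add_cancel hdK] at h1
      have h1 : pair (KO φ Λ) (Pi.single Iᶜ (monomial (mu e) 1)) = 0 := by
        rw [pair_KO, hpair _ hKg]
        exact hlam0 _ hg
      unfold pair at h1
      rw [Finset.sum_eq_single Iᶜ] at h1
      · rw [Pi.single_eq_same, mul_monomial, one_mul, sh_mu he, compl_compl] at h1
        rcases mul_eq_zero.mp h1 with h2 | h2
        · have h3 := eps_sq I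
          rw [h2, zero_mul] at h3
          exact absurd h3 zero_ne_one
        · exact h2
      · intro J _ hJ
        rw [Pi.single_eq_of_ne hJ, mul_zero', LinearMap.zero_apply, Pi.zero_apply, mul_zero]
      · intro h
        exact absurd (Finset.mem_univ _) h
    · refine KO_zero_of fun b hb μ hμ => ?_
      rw [hΛ, if_neg]
      rintro ⟨h1, -, h3⟩
      apply hc
      rw [sum_sh, deg_of_mem (hφ b) hμ] at h3
      have h4 : Iᶜ = insert b (insert b I)ᶜ := by
        ext c
        simp only [Finset.mem_compl, Finset.mem_insert, not_or]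
        by_cases h : c = b
        · simp [h, hb]
        · simp [h]
      refine ⟨?_, ?_⟩
      · rw [h4, Finset.card_insert_of_notMem (by simp), h1]
      · omega
  have hSp : Sp (TT r r) (N - a) Λ := by
    refine ⟨fun I e he => ?_, fun I hI => funext fun e => ?_⟩
    · rw [hΛ, if_neg fun h => he h.2.1]
    · rw [hΛ, if_neg]
      · rfl
      · rintro ⟨h1, -⟩
        have h2 := Finset.card_compl I
        rw [Fintype.card_fin] at h2
        have h3 : I.card ≤ N := by
          have := Finset.card_le_univ I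
          rwa [Fintype.card_fin] at this
        omega
  have hDg : Dg (-(r : ℤ) - K) Λ := by
    intro I e he
    rw [hΛ, if_neg fun h => he h.2.2]
  obtain ⟨Ω, -, hΩ⟩ := hex Λ hSp hDg hKΛ
  apply hlam
  rw [← hpair f hf]
  have h1 : pair Λ f = pair (KO φ Ω) f := by
    unfold pair
    refine Finset.sum_congr rfl fun J _ => ?_
    congr 1
    rw [mul_apply, mul_apply]
    refine Finset.sum_congr rfl fun κ _ => ?_
    rw [hΩ _ _ (sh_m1_mem κ)]
  rw [h1, pair_KO, hcyc]
  unfold pair
  refine Finset.sum_eq_zero fun J _ => ?_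
  rw [Pi.zero_apply, mul_zero', LinearMap.zero_apply, Pi.zero_apply, mul_zero]

theorem green {φ : Fin N → MvPolynomial (Fin r) ℂ} {d : ℕ} (hφ : ∀ b, (φ b).IsHomogeneous d)
    (hli : LinearIndependent ℂ φ) (hpow : ∀ i : Fin r, ∃ a : Fin N → ℂ, ∑ b, a b • φ b = X i ^ d)
    {K K' a : ℕ} (hdK : d ≤ K) (hKK : K + K' + r = r * d)
    (ha : (Mo (Fin r) K').card + r + a ≤ N)
    {f : Finset (Fin N) → MvPolynomial (Fin r) ℂ} (hf : f ∈ CS r N a K) (hcyc : KP φ f = 0) :
    ∃ g ∈ CS r N (a + 1) (K - d), KP φ g = f := by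
  refine dual_main hφ (by omega) hdK ?_ hf hcyc
  have h1 := Ex_chain hφ hpow (Ex_zero hφ hli (K := K') (c := N - a - r) (by omega)) r le_rfl
  have h2 : N - a - r + r = N - a := by omega
  have h3 : (K' : ℤ) - (r : ℤ) * d = -(r : ℤ) - K := by
    have : (K : ℤ) + K' + r = r * d := by exact_mod_cast hKK
    linarith
  rw [h2, h3] at h1
  exact h1

theorem green_large {φ : Fin N → MvPolynomial (Fin r) ℂ} {d : ℕ} (hφ : ∀ b, (φ b).IsHomogeneous d)
    (hpow : ∀ i : Fin r, ∃ a : Fin N → ℂ, ∑ b, a b • φ b = X i ^ d)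
    {K a : ℕ} (hdK : d ≤ K) (hKK : r * d < K + r) (ha : r + a ≤ N)
    {f : Finset (Fin N) → MvPolynomial (Fin r) ℂ} (hf : f ∈ CS r N a K) (hcyc : KP φ f = 0) :
    ∃ g ∈ CS r N (a + 1) (K - d), KP φ g = f := by
  refine dual_main hφ (by omega) hdK ?_ hf hcyc
  have h0 : (r : ℤ) * d - r - K < 0 := by
    have : (r : ℤ) * d < K + r := by exact_mod_cast hKK
    linarith
  have h1 := Ex_chain hφ hpow (Ex_neg φ (N - a - r) h0) r le_rfl
  have h2 : N - a - r + r = N - a := by omega
  have h3 : (r : ℤ) * d - r - K - (r : ℤ) * d = -(r : ℤ) - K := by ring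
  rw [h2, h3] at h1
  exact h1

end Pool.Agent.H34.GP
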