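import Pool.Agent.H34.GP.Fun

/-!
# Green's vanishing theorem, elementary proof: the connecting homomorphisms

`TT j` : exponents whose first `j` coordinates are negative, the others nonnegative;
`LL j` : the same without a condition on coordinate `j`.  The complex of `LL j` is exact because
`X_j ^ d` acts invertibly, and `LL j = TT j ∪ TT (j+1)`; so exactness for `TT j` at `b` gives
exactness for `TT (j+1)` at `b + 1`.
-/

set_option autoImplicit false
set_option linter.unusedSectionVars false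

open MvPolynomial

namespace Pool.Agent.H34.GP

open Pool.Agent.H27.OP

variable {r N : ℕ}

lemma KO_apply (φ : Fin N → MvPolynomial (Fin r) ℂ) (f : Finset (Fin N) → Fn r)
    (I : Finset (Fin N)) (e : Fin r → ℤ) :
    KO φ f I e = ∑ b, mul (φ b) (aJ ℂ b f I) e := by
  unfold KO
  rw [LinearMap.sum_apply, Finset.sum_apply, Finset.sum_apply]
  rfl

lemma KO_zero_of {φ : Fin N → MvPolynomial (Fin r) ℂ} {f : Finset (Fin N) → Fn r}
    {I : Finset (Fin N)} {e : Fin r → ℤ}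
    (h : ∀ b, b ∉ I → ∀ μ ∈ (φ b).support, f (insert b I) (sh e μ) = 0) : KO φ f I e = 0 := by
  rw [KO_apply]
  refine Finset.sum_eq_zero fun b _ => ?_
  rw [mul_apply]
  refine Finset.sum_eq_zero fun μ hμ => ?_
  rw [aJ_apply]
  split_ifs with hb
  · rw [Pi.zero_apply, mul_zero]
  · rw [Pi.smul_apply, h b hb μ hμ, smul_zero, mul_zero]

/-- support in `A` and in cardinality `b` -/
def Sp (A : Set (Fin r → ℤ)) (b : ℕ) (f : Finset (Fin N) → Fn r) : Prop :=
  (∀ I e, e ∉ A → f I e = 0) ∧ ∀ I, I.card ≠ b → f I = 0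

/-- homogeneous of degree `m` -/
def Dg (m : ℤ) (f : Finset (Fin N) → Fn r) : Prop := ∀ I e, ∑ i, e i ≠ m → f I e = 0

/-- exactness of the complex of `A` at exterior degree `b` and total degree `m` -/
def Ex (φ : Fin N → MvPolynomial (Fin r) ℂ) (A : Set (Fin r → ℤ)) (b : ℕ) (m : ℤ) : Prop :=
  ∀ f : Finset (Fin N) → Fn r, Sp A b f → Dg m f → (∀ I, ∀ e ∈ A, KO φ f I e = 0) →
    ∃ g, Sp A (b + 1) g ∧ ∀ I, ∀ e ∈ A, f I e = KO φ g I e

/-- restriction to a set of exponents -/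
noncomputable def cut (A : Set (Fin r → ℤ)) (f : Finset (Fin N) → Fn r) :
    Finset (Fin N) → Fn r := by
  classical exact fun I e => if e ∈ A then f I e else 0

lemma cut_mem {A : Set (Fin r → ℤ)} {f : Finset (Fin N) → Fn r} {I : Finset (Fin N)}
    {e : Fin r → ℤ} (h : e ∈ A) : cut A f I e = f I e := by
  unfold cut
  exact if_pos h

lemma cut_not {A : Set (Fin r → ℤ)} {f : Finset (Fin N) → Fn r} {I : Finset (Fin N)}
    {e : Fin r → ℤ} (h : e ∉ A) : cut A f I e = 0 := by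
  unfold cut
  exact if_neg h

lemma cut_card {A : Set (Fin r → ℤ)} {f : Finset (Fin N) → Fn r} {b : ℕ}
    (h : ∀ I, I.card ≠ b → f I = 0) : ∀ I, I.card ≠ b → cut A f I = 0 := by
  intro I hI
  funext e
  by_cases he : e ∈ A
  · rw [cut_mem he, h I hI]
  · rw [cut_not he]
    rfl

lemma KO_card {φ : Fin N → MvPolynomial (Fin r) ℂ} {f : Finset (Fin N) → Fn r} {b : ℕ}
    (h : ∀ I, I.card ≠ b + 1 → f I = 0) : ∀ I, I.card ≠ b → KO φ f I = 0 := by
  intro I hI
  funext e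
  refine KO_zero_of fun c hc μ _ => ?_
  rw [h (insert c I) (by rw [Finset.card_insert_of_notMem hc]; omega)]
  rfl

lemma sum_sh (e : Fin r → ℤ) (μ : Fin r →₀ ℕ) :
    ∑ i, sh e μ i = ∑ i, e i - (∑ i, μ i : ℕ) := by
  unfold sh
  rw [Finset.sum_sub_distrib]
  push_cast
  rfl

lemma deg_of_mem {p : MvPolynomial (Fin r) ℂ} {d : ℕ} (hp : p.IsHomogeneous d) {μ : Fin r →₀ ℕ}
    (hμ : μ ∈ p.support) : ∑ i, μ i = d := by
  have h := hp (mem_support_iff.mp hμ)
  rw [← h, Finsupp.weight_apply, Finsupp.sum_fintype]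
  · simp
  · simp

lemma KO_Dg {φ : Fin N → MvPolynomial (Fin r) ℂ} {d : ℕ} (hφ : ∀ b, (φ b).IsHomogeneous d)
    {f : Finset (Fin N) → Fn r} {m : ℤ} (h : Dg m f) : Dg (m + d) (KO φ f) := by
  intro I e he
  refine KO_zero_of fun b _ μ hμ => ?_
  refine h _ _ ?_
  rw [sum_sh, deg_of_mem (hφ b) hμ]
  intro h'
  apply he
  rw [← h']
  ring

/-- first `j` exponents negative, the others nonnegative -/
def TT (r j : ℕ) : Set (Fin r → ℤ) :=
  {e | (∀ i : Fin r, (i : ℕ) < j → e i < 0) ∧ ∀ i : Fin r, j ≤ (i : ℕ) → 0 ≤ e i}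

/-- first `j` exponents negative, exponents after `j` nonnegative -/
def LL (r j : ℕ) : Set (Fin r → ℤ) :=
  {e | (∀ i : Fin r, (i : ℕ) < j → e i < 0) ∧ ∀ i : Fin r, j < (i : ℕ) → 0 ≤ e i}

lemma LL_cases {j : ℕ} {e : Fin r → ℤ} (h : e ∈ LL r j) : e ∈ TT r j ∨ e ∈ TT r (j + 1) := by
  by_cases hj : ∀ i : Fin r, (i : ℕ) = j → 0 ≤ e i
  · left
    refine ⟨h.1, fun i hi => ?_⟩
    rcases Nat.eq_or_lt_of_le hi with h1 | h1
    · exact hj i h1.symm
    · exact h.2 i h1
  · right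
    push Not at hj
    obtain ⟨i₀, h0, h1⟩ := hj
    refine ⟨fun i hi => ?_, fun i hi => h.2 i (by omega)⟩
    rcases Nat.lt_or_ge (i : ℕ) j with h2 | h2
    · exact h.1 i h2
    · have h3 : i = i₀ := Fin.ext (by omega)
      rw [h3]
      exact h1

lemma TT_sub {j : ℕ} {e : Fin r → ℤ} (h : e ∈ TT r j) : e ∈ LL r j :=
  ⟨h.1, fun i hi => h.2 i hi.le⟩

lemma TT_sub' {j : ℕ} {e : Fin r → ℤ} (h : e ∈ TT r (j + 1)) : e ∈ LL r j :=
  ⟨fun i hi => h.1 i (by omega), fun i hi => h.2 i hi⟩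

lemma TT_disj {j : ℕ} (hj : j < r) {e : Fin r → ℤ} (h : e ∈ TT r j) : e ∉ TT r (j + 1) := by
  intro h'
  have h1 := h.2 ⟨j, hj⟩ le_rfl
  have h2 := h'.1 ⟨j, hj⟩ (Nat.lt_succ_self j)
  omega

/-- from `TT j` one cannot get to `TT (j + 1)` -/
lemma sh_TT {j : ℕ} (hj : j < r) {e : Fin r → ℤ} (h : e ∈ TT r (j + 1)) (μ : Fin r →₀ ℕ) :
    sh e μ ∉ TT r j := by
  intro h'
  have h1 := h'.2 ⟨j, hj⟩ le_rfl
  have h2 := h.1 ⟨j, hj⟩ (Nat.lt_succ_self j)
  unfold sh at h1
  omega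

/-- exponents reached from `LL j` and landing in `LL j` do not leave `LL j` -/
lemma sh_LL {j : ℕ} {e : Fin r → ℤ} (h : e ∈ LL r j) {μ ν : Fin r →₀ ℕ}
    (h' : sh (sh e μ) ν ∈ LL r j) : sh e μ ∈ LL r j := by
  refine ⟨fun i hi => ?_, fun i hi => ?_⟩
  · have := h.1 i hi
    unfold sh
    omega
  · have := h'.2 i hi
    unfold sh at this ⊢
    omega

/-- the complex of `LL j` is exact -/
lemma Ex_LL {φ : Fin N → MvPolynomial (Fin r) ℂ} {d : ℕ} {j : ℕ} (hj : j < r) (a : Fin N → ℂ)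
    (ha : ∑ b, a b • φ b = X ⟨j, hj⟩ ^ d) {b : ℕ} {f : Finset (Fin N) → Fn r}
    (hf : Sp (LL r j) b f) (hK : ∀ I, ∀ e ∈ LL r j, KO φ f I e = 0) :
    ∃ g, Sp (LL r j) (b + 1) g ∧ ∀ I, ∀ e ∈ LL r j, f I e = KO φ g I e := by
  classical
  -- inverse shift
  let S : Module.End ℂ (Fn r) :=
    { toFun := fun θ e => θ (fun i => e i + if i = ⟨j, hj⟩ then (d : ℤ) else 0)
      map_add' := fun _ _ => rfl
      map_smul' := fun _ _ => rfl }
  have hS : ∀ (θ : Fn r) (e : Fin r → ℤ),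
      S θ e = θ (fun i => e i + if i = ⟨j, hj⟩ then (d : ℤ) else 0) := fun _ _ => rfl
  have hmem : ∀ e : Fin r → ℤ, e ∈ LL r j ↔
      (fun i => e i + if i = ⟨j, hj⟩ then (d : ℤ) else 0) ∈ LL r j := by
    intro e
    constructor
    · intro h
      refine ⟨fun i hi => ?_, fun i hi => ?_⟩
      · have h1 : i ≠ ⟨j, hj⟩ := fun h2 => by rw [h2] at hi; exact absurd hi (lt_irrefl _)
        simp only [if_neg h1, add_zero]
        exact h.1 i hi
      · have h1 : i ≠ ⟨j, hj⟩ := fun h2 => by rw [h2] at hi; exact absurd hi (lt_irrefl _)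
        simp only [if_neg h1, add_zero]
        exact h.2 i hi
    · intro h
      refine ⟨fun i hi => ?_, fun i hi => ?_⟩
      · have h1 : i ≠ ⟨j, hj⟩ := fun h2 => by rw [h2] at hi; exact absurd hi (lt_irrefl _)
        have h2 := h.1 i hi
        simpa only [if_neg h1, add_zero] using h2
      · have h1 : i ≠ ⟨j, hj⟩ := fun h2 => by rw [h2] at hi; exact absurd hi (lt_irrefl _)
        have h2 := h.2 i hi
        simpa only [if_neg h1, add_zero] using h2
  have hcomm : ∀ p : MvPolynomial (Fin r) ℂ, S * mul p = mul p * S := by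
    intro p
    refine LinearMap.ext fun θ => funext fun e => ?_
    rw [Module.End.mul_apply, Module.End.mul_apply, hS, mul_apply, mul_apply]
    refine Finset.sum_congr rfl fun μ _ => ?_
    rw [hS]
    congr 2
    funext i
    unfold sh
    ring
  have hinv : S * mul (X ⟨j, hj⟩ ^ d) = 1 := by
    refine LinearMap.ext fun θ => funext fun e => ?_
    rw [Module.End.mul_apply, hS, X_pow_eq_monomial, mul_apply' _ _ _ _ support_monomial_subset,
      Finset.sum_singleton, coeff_monomial, if_pos rfl, one_mul, Module.End.one_apply]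
    congr 1
    funext i
    show e i + (if i = ⟨j, hj⟩ then (d : ℤ) else 0) - ((Finsupp.single (⟨j, hj⟩ : Fin r) d i : ℕ) : ℤ)
      = e i
    by_cases hi : i = ⟨j, hj⟩
    · rw [if_pos hi, hi, Finsupp.single_eq_same]
      ring
    · rw [if_neg hi, Finsupp.single_eq_of_ne hi]
      simp
  have hKS : KO φ * lm ℂ N S = lm ℂ N S * KO φ := by
    unfold KO
    rw [Finset.sum_mul, Finset.mul_sum]
    refine Finset.sum_congr rfl fun b _ => ?_
    rw [mul_assoc, ← lm_aJ, ← mul_assoc, ← mul_assoc, ← map_mul, ← map_mul, hcomm]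
  refine ⟨lm ℂ N S (EO a f), ⟨?_, ?_⟩, ?_⟩
  · intro I e he
    rw [lm_apply, hS]
    have h1 : ∀ I', f I' (fun i => e i + if i = ⟨j, hj⟩ then (d : ℤ) else 0) = 0 := fun I' =>
      hf.1 I' _ (fun h => he ((hmem e).mpr h))
    unfold EO
    rw [LinearMap.sum_apply, Finset.sum_apply, Finset.sum_apply]
    refine Finset.sum_eq_zero fun c _ => ?_
    rw [LinearMap.smul_apply, Pi.smul_apply, Pi.smul_apply, aE_apply]
    split_ifs
    · rw [Pi.smul_apply, h1, smul_zero, smul_zero]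
    · rw [Pi.zero_apply, smul_zero]
  · intro I hI
    have h1 : EO a f I = 0 := by
      unfold EO
      rw [LinearMap.sum_apply, Finset.sum_apply]
      refine Finset.sum_eq_zero fun c _ => ?_
      rw [LinearMap.smul_apply, Pi.smul_apply, aE_apply]
      split_ifs with hc
      · rw [hf.2 (I.erase c) (by
          have := Finset.card_erase_add_one hc
          omega), smul_zero, smul_zero]
      · rw [smul_zero]
    rw [lm_apply, h1, map_zero]
  · intro I e he
    have h1 : KO φ (EO a f) = lm ℂ N (mul (X ⟨j, hj⟩ ^ d)) f - EO a (KO φ f) := by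
      have h2 := congrArg (fun A => A f) (KO_EO φ a)
      simp only [LinearMap.add_apply, Module.End.mul_apply] at h2
      rw [ha] at h2
      rw [← h2, add_sub_cancel_right]
    have h3 : KO φ (lm ℂ N S (EO a f)) = f - lm ℂ N S (EO a (KO φ f)) := by
      have h4 := congrArg (fun A => A (EO a f)) hKS
      simp only [Module.End.mul_apply] at h4
      rw [h4, h1, map_sub]
      congr 1
      rw [← Module.End.mul_apply, ← map_mul, hinv, map_one, Module.End.one_apply]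
    rw [h3, Pi.sub_apply, Pi.sub_apply]
    have h5 : lm ℂ N S (EO a (KO φ f)) I e = 0 := by
      rw [lm_apply, hS]
      unfold EO
      rw [LinearMap.sum_apply, Finset.sum_apply, Finset.sum_apply]
      refine Finset.sum_eq_zero fun c _ => ?_
      rw [LinearMap.smul_apply, Pi.smul_apply, Pi.smul_apply, aE_apply]
      split_ifs
      · rw [Pi.smul_apply, hK _ _ ((hmem e).mp he), smul_zero, smul_zero]
      · rw [Pi.zero_apply, smul_zero]
    rw [h5, sub_zero]

/-- the connecting homomorphism -/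
theorem Ex_succ {φ : Fin N → MvPolynomial (Fin r) ℂ} {d : ℕ} (hφ : ∀ b, (φ b).IsHomogeneous d)
    {j : ℕ} (hj : j < r) (a : Fin N → ℂ) (ha : ∑ b, a b • φ b = X ⟨j, hj⟩ ^ d) {b : ℕ} {m : ℤ}
    (h : Ex φ (TT r j) b (m + d)) : Ex φ (TT r (j + 1)) (b + 1) m := by
  intro f hf hm hK
  -- `κ` = the part of `KO f` on `TT j`
  have hκ1 : Sp (TT r j) b (cut (TT r j) (KO φ f)) :=
    ⟨fun I e he => cut_not he, cut_card (KO_card hf.2)⟩
  have hκ2 : Dg (m + d) (cut (TT r j) (KO φ f)) := by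
    intro I e he
    by_cases h1 : e ∈ TT r j
    · rw [cut_mem h1]
      exact KO_Dg hφ hm I e he
    · exact cut_not h1
  -- `KO f` vanishes on `LL j` outside `TT j`
  have hκ0 : ∀ I, ∀ e ∈ LL r j, cut (TT r j) (KO φ f) I e = KO φ f I e := by
    intro I e he
    rcases LL_cases he with h1 | h1
    · exact cut_mem h1
    · rw [cut_not (fun h2 => TT_disj hj h2 h1), hK I e h1]
  have hκ3 : ∀ I, ∀ e ∈ TT r j, KO φ (cut (TT r j) (KO φ f)) I e = 0 := by
    intro I e he
    have h1 : KO φ (KO φ f) I e = 0 := by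
      rw [← Module.End.mul_apply, KO_KO]
      rfl
    rw [← h1, ← sub_eq_zero, ← Pi.sub_apply, ← Pi.sub_apply, ← map_sub]
    refine KO_zero_of fun c _ μ _ => ?_
    rw [Pi.sub_apply, Pi.sub_apply, sub_eq_zero]
    by_cases h2 : sh e μ ∈ LL r j
    · exact hκ0 _ _ h2
    · rw [cut_not (fun h3 => h2 (TT_sub h3))]
      symm
      refine KO_zero_of fun c' _ ν _ => ?_
      refine hf.1 _ _ fun h3 => h2 (sh_LL (TT_sub he) (ν := ν) ?_)
      exact TT_sub' h3
  obtain ⟨θ, hθ1, hθ2⟩ := h _ hκ1 hκ2 hκ3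
  -- `f - θ` is a cycle for `LL j`
  have hg1 : Sp (LL r j) (b + 1) (f - θ) := by
    refine ⟨fun I e he => ?_, fun I hI => ?_⟩
    · rw [Pi.sub_apply, Pi.sub_apply, hf.1 I e (fun h1 => he (TT_sub' h1)),
        hθ1.1 I e (fun h1 => he (TT_sub h1)), sub_zero]
    · rw [Pi.sub_apply, hf.2 I hI, hθ1.2 I hI, sub_zero]
  have hg2 : ∀ I, ∀ e ∈ LL r j, KO φ (f - θ) I e = 0 := by
    intro I e he
    rw [map_sub, Pi.sub_apply, Pi.sub_apply, sub_eq_zero]
    rcases LL_cases he with h1 | h1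
    · rw [← hθ2 I e h1, cut_mem h1]
    · rw [hK I e h1]
      symm
      exact KO_zero_of fun c _ μ _ => hθ1.1 _ _ (sh_TT hj h1 μ)
  obtain ⟨ω, hω1, hω2⟩ := Ex_LL hj a ha hg1 hg2
  refine ⟨cut (TT r (j + 1)) ω, ⟨fun I e he => cut_not he, cut_card hω1.2⟩, ?_⟩
  intro I e he
  have h1 := hω2 I e (TT_sub' he)
  rw [Pi.sub_apply, Pi.sub_apply, hθ1.1 I e (fun h2 => TT_disj hj h2 he), sub_zero] at h1
  rw [h1, ← sub_eq_zero, ← Pi.sub_apply, ← Pi.sub_apply, ← map_sub]
  refine KO_zero_of fun c _ μ _ => ?_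
  rw [Pi.sub_apply, Pi.sub_apply, sub_eq_zero]
  by_cases h2 : sh e μ ∈ TT r (j + 1)
  · rw [cut_mem h2]
  · rw [cut_not h2]
    refine hω1.1 _ _ fun h3 => ?_
    rcases LL_cases h3 with h4 | h4
    · exact sh_TT hj he μ h4
    · exact h2 h4

end Pool.Agent.H34.GP
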