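import Pool.Agent.H34.GP.Loc

/-!
# Green's vanishing theorem, elementary proof: points

Koszul cycles of exterior degree `c` with coefficients of degree `K'` vanish if `c` is at least the
number of monomials of degree `K'`.  Points `p_t = (t^{w 0}, …, t^{w (r-1)})`, `t > 0`, and
Descartes' rule of signs.
-/

set_option autoImplicit false
set_option linter.unusedSectionVars false

open MvPolynomial

namespace Pool.Agent.H34.GP

open Pool.Agent.H27.OP

variable {r N : ℕ}

/-! ### Descartes -/

lemma signVar_lt (q : Polynomial ℝ) (hq : q ≠ 0) : q.signVariations < q.support.card := by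
  have key : ∀ n : ℕ, ∀ q : Polynomial ℝ, q ≠ 0 → q.support.card = n → q.signVariations < n := by
    intro n
    induction n with
    | zero =>
      intro q hq h
      rw [Finset.card_eq_zero, Polynomial.support_eq_empty] at h
      exact absurd h hq
    | succ n ih =>
      intro q hq h
      have h1 : q.eraseLead.support.card = n := Polynomial.card_support_eraseLead' h
      have h2 := q.signVariations_le_eraseLead_succ
      by_cases h3 : q.eraseLead = 0
      · have h4 : n = 0 := by
          rw [← h1, h3]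
          simp
        have h5 : q.signVariations = 0 := by
          have h6 := Polynomial.eraseLead_add_monomial_natDegree_leadingCoeff q
          rw [h3, zero_add] at h6
          rw [← h6]
          exact Polynomial.signVariations_monomial _ _
        omega
      · have := ih _ h3 h1
        omega
  exact key _ q hq rfl

lemma card_lt_of_roots (q : Polynomial ℝ) (hq : q ≠ 0) (T : Finset ℝ) (hpos : ∀ t ∈ T, 0 < t)
    (h0 : ∀ t ∈ T, q.eval t = 0) : T.card < q.support.card := by
  classical
  have h1 : T.card ≤ q.roots.countP (0 < ·) := by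
    have h2 : T ⊆ (q.roots.filter (0 < ·)).toFinset := by
      intro t ht
      rw [Multiset.mem_toFinset, Multiset.mem_filter, Polynomial.mem_roots hq]
      exact ⟨h0 t ht, hpos t ht⟩
    rw [Multiset.countP_eq_card_filter]
    exact (Finset.card_le_card h2).trans (Multiset.toFinset_card_le _)
  have h3 := Polynomial.roots_countP_pos_le_signVariations (P := q)
  have h4 := signVar_lt q hq
  omega

lemma real_sum_zero {ι : Type*} (S : Finset ι) (w : ι → ℕ) (hw : Set.InjOn w S) (c : ι → ℝ)
    (T : Finset ℝ) (hpos : ∀ t ∈ T, 0 < t) (hT : S.card ≤ T.card)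
    (h : ∀ t ∈ T, ∑ i ∈ S, c i * t ^ w i = 0) : ∀ i ∈ S, c i = 0 := by
  classical
  have hcoef : ∀ i ∈ S, (∑ j ∈ S, Polynomial.monomial (w j) (c j)).coeff (w i) = c i := by
    intro i hi
    rw [Polynomial.finsetSum_coeff, Finset.sum_eq_single i]
    · rw [Polynomial.coeff_monomial, if_pos rfl]
    · intro j hj hji
      rw [Polynomial.coeff_monomial, if_neg]
      intro h1
      exact hji (hw hj hi h1)
    · intro h1
      exact absurd hi h1
  by_cases hq : (∑ j ∈ S, Polynomial.monomial (w j) (c j)) = 0
  · intro i hi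
    rw [← hcoef i hi, hq, Polynomial.coeff_zero]
  · exfalso
    have h1 := card_lt_of_roots _ hq T hpos (by
      intro t ht
      rw [Polynomial.eval_finsetSum]
      simpa only [Polynomial.eval_monomial] using h t ht)
    have h2 : (∑ j ∈ S, Polynomial.monomial (w j) (c j)).support ⊆ S.image w := by
      intro n hn
      rw [Polynomial.mem_support_iff, Polynomial.finsetSum_coeff] at hn
      obtain ⟨j, hj, hj'⟩ := Finset.exists_ne_zero_of_sum_ne_zero hn
      rw [Polynomial.coeff_monomial] at hj'
      split_ifs at hj' with h3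
      · exact Finset.mem_image.mpr ⟨j, hj, h3⟩
      · exact absurd rfl hj'
    have h3 := Finset.card_le_card h2
    have h4 : (S.image w).card ≤ S.card := Finset.card_image_le
    omega

lemma cplx_sum_zero {ι : Type*} (S : Finset ι) (w : ι → ℕ) (hw : Set.InjOn w S) (c : ι → ℂ)
    (T : Finset ℝ) (hpos : ∀ t ∈ T, 0 < t) (hT : S.card ≤ T.card)
    (h : ∀ t ∈ T, ∑ i ∈ S, c i * (t : ℂ) ^ w i = 0) : ∀ i ∈ S, c i = 0 := by
  have h1 := real_sum_zero S w hw (fun i => (c i).re) T hpos hT (by
    intro t ht
    have h2 := congrArg Complex.re (h t ht)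
    rw [Complex.re_sum, Complex.zero_re] at h2
    rw [← h2]
    refine Finset.sum_congr rfl fun i _ => ?_
    rw [← Complex.ofReal_pow, Complex.re_mul_ofReal])
  have h2 := real_sum_zero S w hw (fun i => (c i).im) T hpos hT (by
    intro t ht
    have h2 := congrArg Complex.im (h t ht)
    rw [Complex.im_sum, Complex.zero_im] at h2
    rw [← h2]
    refine Finset.sum_congr rfl fun i _ => ?_
    rw [← Complex.ofReal_pow, Complex.im_mul_ofReal])
  intro i hi
  exact Complex.ext (h1 i hi) (h2 i hi)

/-! ### digits -/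

lemma digits_inj (B : ℕ) : ∀ (r : ℕ) (f g : Fin r → ℕ), (∀ i, f i < B) → (∀ i, g i < B) →
    ∑ i : Fin r, B ^ (i : ℕ) * f i = ∑ i : Fin r, B ^ (i : ℕ) * g i → f = g := by
  intro r
  induction r with
  | zero => intro f g _ _ _; exact funext fun i => i.elim0
  | succ r ih =>
    intro f g hf hg h
    rw [Fin.sum_univ_succ, Fin.sum_univ_succ] at h
    have h1 : ∀ u : Fin (r + 1) → ℕ, ∑ i : Fin r, B ^ ((i.succ : Fin (r + 1)) : ℕ) * u i.succ
        = B * ∑ i : Fin r, B ^ (i : ℕ) * u i.succ := by
      intro u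
      rw [Finset.mul_sum]
      refine Finset.sum_congr rfl fun i _ => ?_
      rw [Fin.val_succ, pow_succ]
      ring
    rw [h1, h1, Fin.val_zero, pow_zero, one_mul, one_mul] at h
    have h0 : f 0 = g 0 := by
      have h2 := congrArg (· % B) h
      simp only [Nat.add_mul_mod_self_left] at h2
      rwa [Nat.mod_eq_of_lt (hf 0), Nat.mod_eq_of_lt (hg 0)] at h2
    rw [h0] at h
    have hB : 0 < B := lt_of_le_of_lt (Nat.zero_le _) (hf 0)
    have h3 := Nat.eq_of_mul_eq_mul_left hB (Nat.add_left_cancel h)
    have h4 := ih (fun i => f i.succ) (fun i => g i.succ) (fun i => hf _) (fun i => hg _) h3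
    funext i
    refine Fin.cases h0 (fun i => ?_) i
    exact congrFun h4 i

/-! ### evaluation on the curve -/

/-- the point `p_t` -/
noncomputable def evt (r B : ℕ) (t : ℝ) : MvPolynomial (Fin r) ℂ →ₐ[ℂ] ℂ :=
  aeval fun i => (t : ℂ) ^ (B ^ (i : ℕ))

lemma evt_eq (B : ℕ) (t : ℝ) {m : ℕ} {g : MvPolynomial (Fin r) ℂ} (hg : g.IsHomogeneous m) :
    evt r B t g = ∑ μ ∈ Mo (Fin r) m, coeff μ g * (t : ℂ) ^ (∑ i : Fin r, B ^ (i : ℕ) * μ i) := by
  have h := sum_coeff (evt r B t).toLinearMap hg
  rw [AlgHom.toLinearMap_apply] at h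
  rw [← h]
  refine Finset.sum_congr rfl fun μ _ => ?_
  rw [smul_eq_mul]
  congr 1
  rw [AlgHom.toLinearMap_apply, evt, aeval_monomial, map_one, one_mul, Finsupp.prod_fintype _ _
    (fun i => pow_zero _), ← Finset.prod_pow_eq_pow_sum]
  refine Finset.prod_congr rfl fun i _ => ?_
  rw [pow_mul]

lemma evt_zero {B m : ℕ} (hB : m < B) {g : MvPolynomial (Fin r) ℂ} (hg : g.IsHomogeneous m)
    (T : Finset ℝ) (hpos : ∀ t ∈ T, 0 < t) (hT : (Mo (Fin r) m).card ≤ T.card)
    (h : ∀ t ∈ T, evt r B t g = 0) : g = 0 := by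
  have hw : Set.InjOn (fun μ : Fin r →₀ ℕ => ∑ i : Fin r, B ^ (i : ℕ) * μ i) (Mo (Fin r) m) := by
    intro μ hμ ν hν h1
    have hle : ∀ μ : Fin r →₀ ℕ, μ ∈ Mo (Fin r) m → ∀ i, μ i < B := by
      intro μ hμ i
      rw [mem_Mo, Finsupp.degree_eq_sum] at hμ
      have := Finset.single_le_sum (f := fun i => μ i) (fun _ _ => Nat.zero_le _)
        (Finset.mem_univ i)
      omega
    exact DFunLike.coe_injective (digits_inj B r μ ν (hle μ hμ) (hle ν hν) h1)
  have h1 := cplx_sum_zero (Mo (Fin r) m) _ hw (fun μ => coeff μ g) T hpos hT (by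
    intro t ht
    rw [← evt_eq B t hg]
    exact h t ht)
  refine MvPolynomial.ext _ _ fun μ => ?_
  rw [coeff_zero]
  by_contra hc
  exact hc (h1 μ (mem_Mo_of_coeff hg hc))

/-! ### contraction with a point -/

/-- contraction with the functional `φ_b ↦ v b` -/
noncomputable def IO {M : Type*} [AddCommGroup M] [Module ℂ M] (v : Fin N → ℂ) :
    Module.End ℂ (Finset (Fin N) → M) := ∑ b, v b • aJ ℂ b

lemma IO_apply {M : Type*} [AddCommGroup M] [Module ℂ M] (v : Fin N → ℂ)
    (f : Finset (Fin N) → M) (I : Finset (Fin N)) : IO v f I = ∑ b, v b • aJ ℂ b f I := by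
  unfold IO
  rw [LinearMap.sum_apply, Finset.sum_apply]
  rfl

lemma IO_IO {M : Type*} [AddCommGroup M] [Module ℂ M] (v v' : Fin N → ℂ)
    (f : Finset (Fin N) → M) : IO v (IO v' f) = - IO v' (IO v f) := by
  unfold IO
  rw [← Module.End.mul_apply, ← Module.End.mul_apply, Finset.sum_mul_sum, Finset.sum_mul_sum,
    Finset.sum_comm, LinearMap.sum_apply, LinearMap.sum_apply, ← Finset.sum_neg_distrib]
  refine Finset.sum_congr rfl fun b _ => ?_
  rw [LinearMap.sum_apply, LinearMap.sum_apply, ← Finset.sum_neg_distrib]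
  refine Finset.sum_congr rfl fun c _ => ?_
  rw [smul_mul_smul_comm, smul_mul_smul_comm, LinearMap.smul_apply, LinearMap.smul_apply, aJJ,
    LinearMap.neg_apply, smul_neg, mul_comm]

/-- a linear map of the coefficients commutes with the contraction -/
lemma IO_map {M M' : Type*} [AddCommGroup M] [Module ℂ M] [AddCommGroup M'] [Module ℂ M']
    (L : M →ₗ[ℂ] M') (v : Fin N → ℂ) (f : Finset (Fin N) → M) :
    IO v (fun I => L (f I)) = fun I => L (IO v f I) := by
  funext I
  rw [IO_apply, IO_apply, map_sum]
  refine Finset.sum_congr rfl fun b _ => ?_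
  rw [map_smul, aJ_apply, aJ_apply]
  split_ifs
  · rw [map_zero]
  · rw [map_smul]

theorem pts_main {φ : Fin N → MvPolynomial (Fin r) ℂ} {d : ℕ} (hφ : ∀ b, (φ b).IsHomogeneous d)
    (hli : LinearIndependent ℂ φ) {K B : ℕ} (hBd : d < B) (hBK : K < B) :
    ∀ (c : ℕ) (F : Finset (Fin N) → MvPolynomial (Fin r) ℂ) (T : Finset ℝ),
      (∀ I, (F I).IsHomogeneous K) → (∀ I, I.card ≠ c → F I = 0) → (∀ t ∈ T, 0 < t) →
      (∀ t ∈ T, ∀ I, evt r B t (F I) = 0) →
      (∀ t : ℝ, 0 < t → t ∉ T → ∀ I,
        IO (fun b => evt r B t (φ b)) (fun I => evt r B t (F I)) I = 0) →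
      (Mo (Fin r) K).card ≤ T.card + c → F = 0 := by
  classical
  intro c
  induction c with
  | zero =>
    intro F T hh hc hpos hT _ hcard
    funext I
    exact evt_zero hBK (hh I) T hpos (by omega) fun t ht => hT t ht I
  | succ c ih =>
    intro F T hh hc hpos hT hK hcard
    have h1 : ∀ s : ℝ, 0 < s → s ∉ T → IO (fun b => evt r B s (φ b)) F = 0 := by
      intro s hs hsT
      have hev : ∀ t : ℝ, (fun I => evt r B t (IO (fun b => evt r B s (φ b)) F I))
          = IO (fun b => evt r B s (φ b)) (fun I => evt r B t (F I)) := fun t =>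
        (IO_map (evt r B t).toLinearMap _ F).symm
      refine ih _ (insert s T) ?_ ?_ ?_ ?_ ?_ ?_
      · intro I
        rw [IO_apply]
        refine IsHomogeneous.sum _ _ _ fun b _ => ?_
        rw [smul_eq_C_mul]
        refine IsHomogeneous.C_mul ?_ _
        rw [aJ_apply]
        split_ifs
        · exact isHomogeneous_zero _ _ _
        · rw [smul_eq_C_mul]
          exact (hh _).C_mul _
      · intro I hI
        rw [IO_apply]
        refine Finset.sum_eq_zero fun b _ => ?_
        rw [aJ_apply]
        split_ifs with hb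
        · rw [smul_zero]
        · rw [hc _ (by rw [Finset.card_insert_of_notMem hb]; omega), smul_zero, smul_zero]
      · intro t ht
        rcases Finset.mem_insert.mp ht with rfl | ht
        · exact hs
        · exact hpos t ht
      · intro t ht I
        have h2 := congrFun (hev t) I
        rw [h2]
        rcases Finset.mem_insert.mp ht with rfl | ht
        · exact hK t hs hsT I
        · have h3 : (fun I => evt r B t (F I)) = 0 := funext fun I => hT t ht I
          rw [h3, map_zero]
          rfl
      · intro t ht htT I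
        rw [hev t, IO_IO]
        have h3 : IO (fun b => evt r B t (φ b)) (fun I => evt r B t (F I)) = 0 :=
          funext fun I => hK t ht (fun h => htT (Finset.mem_insert_of_mem h)) I
        rw [h3, map_zero, neg_zero]
        rfl
      · rw [Finset.card_insert_of_notMem hsT]
        omega
    -- all `aJ b F` vanish
    have h2 : ∀ (I : Finset (Fin N)) (μ : Fin r →₀ ℕ) (b : Fin N), coeff μ (aJ ℂ b F I) = 0 := by
      intro I μ
      have h3 : ∑ b, coeff μ (aJ ℂ b F I) • φ b = 0 := by
        have hhom : (∑ b, coeff μ (aJ ℂ b F I) • φ b).IsHomogeneous d := by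
          refine IsHomogeneous.sum _ _ _ fun b _ => ?_
          rw [smul_eq_C_mul]
          exact (hφ b).C_mul _
        -- a finite set of positive reals outside `T`
        obtain ⟨T', hT'1, hT'2, hT'3⟩ : ∃ T' : Finset ℝ, (∀ t ∈ T', 0 < t) ∧ (∀ t ∈ T', t ∉ T) ∧
            (Mo (Fin r) d).card ≤ T'.card := by
          have hinf : (Set.Ioi (0 : ℝ) \ (T : Set ℝ)).Infinite :=
            (Set.Ioi_infinite 0).sdiff T.finite_toSet
          obtain ⟨T', h4, h5⟩ := hinf.exists_subset_card_eq (Mo (Fin r) d).card
          exact ⟨T', fun t ht => (h4 ht).1, fun t ht => (h4 ht).2, h5.ge⟩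
        refine evt_zero hBd hhom T' hT'1 hT'3 ?_
        intro t ht
        have h4 := congrArg (fun q => coeff μ (q I)) (h1 t (hT'1 t ht) (hT'2 t ht))
        simp only [IO_apply, coeff_sum, coeff_smul, Pi.zero_apply, coeff_zero, smul_eq_mul] at h4
        rw [map_sum, ← h4]
        refine Finset.sum_congr rfl fun b _ => ?_
        rw [map_smul, smul_eq_mul, mul_comm]
      exact Fintype.linearIndependent_iff.mp hli _ h3
    funext I
    by_cases hI : I.card = c + 1
    · have hne : I.Nonempty := by
        rw [← Finset.card_pos]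
        omega
      obtain ⟨b, hb⟩ := hne
      have h3 := aEJs_apply (k := ℂ) b F I
      rw [if_pos hb] at h3
      rw [← h3]
      have h4 : aJ ℂ b F = 0 := by
        funext J
        refine MvPolynomial.ext _ _ fun μ => ?_
        rw [Pi.zero_apply, coeff_zero]
        exact h2 J μ b
      rw [h4, map_zero]
    · rw [hc I hI]
      rfl

end Pool.Agent.H34.GP
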